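import Pool.Agent.Y373.NC.Stm

/-!
# Sign systems with many matches (NC-BADC, helper908)
-/

set_option autoImplicit false

namespace Pool.Agent.Y373.NC

open Set Metric Pool.Agent.Helper2.NewtonCover

/-- the index set of the union bound -/
abbrev badc_Idx (d N m : ℕ) : Type :=
  (Fin d → Fin d → (Finset.Icc (-(1000 * d : ℤ)) (1000 * d))) ×
    (Fin d → (Finset.Icc (-(3000 * d : ℤ)) (3000 * d))) × (Fin m → Fin N) × (Fin m → Fin N)

/-- one of the sets of the union bound -/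
def badc_set (d N m : ℕ) (q : badc_Idx d N m) : Set (Fin N → (Fin d → Bool)) :=
  {s | Function.Injective q.2.2.1 ∧ (∀ i j, q.2.2.2 i ≠ q.2.2.1 j) ∧
    ∀ i, ‖pt d (s (q.2.2.1 i)) -
      G d (fun i j => (q.1 i j : ℤ)) (fun i => (q.2.1 i : ℤ)) (pt d (s (q.2.2.2 i)))‖ ≤ 24 / 125}

theorem badc_card (d N m : ℕ) (hd : 1 ≤ d) :
    (Fintype.card (badc_Idx d N m) : ℝ) ≤ (6001 * d : ℝ) ^ (d ^ 2 + d) * (N : ℝ) ^ (2 * m) := by
  have h1 : Fintype.card (badc_Idx d N m) =
      ((2000 * d + 1) ^ d) ^ d * ((6000 * d + 1) ^ d * (N ^ m * N ^ m)) := by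
    rw [Fintype.card_prod, Fintype.card_prod, Fintype.card_prod, Fintype.card_fun,
      Fintype.card_fun, Fintype.card_fun, Fintype.card_fun, Fintype.card_fin, Fintype.card_fin,
      Fintype.card_fin, Fintype.card_coe, Fintype.card_coe, Int.card_Icc, Int.card_Icc]
    congr 4
    · omega
    · omega
  have h2 : (2000 * d + 1) ≤ 6001 * d := by omega
  have h3 : (6000 * d + 1) ≤ 6001 * d := by omega
  have h4 : Fintype.card (badc_Idx d N m) ≤ (6001 * d) ^ (d ^ 2 + d) * N ^ (2 * m) := by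
    rw [h1]
    calc ((2000 * d + 1) ^ d) ^ d * ((6000 * d + 1) ^ d * (N ^ m * N ^ m))
        ≤ ((6001 * d) ^ d) ^ d * ((6001 * d) ^ d * (N ^ m * N ^ m)) := by gcongr
      _ = (6001 * d) ^ (d ^ 2 + d) * N ^ (2 * m) := by
        rw [← pow_mul, ← sq d, pow_add, two_mul, pow_add]
        ring
  exact_mod_cast h4

theorem badc (h1 : S_ball) (h2 : S_cnt) : S_badc := by
  classical
  intro d N m hd
  have hsub : {s : Fin N → (Fin d → Bool) | ¬ NoBad m (fun k => pt d (s k))} ⊆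
      ⋃ q ∈ (Finset.univ : Finset (badc_Idx d N m)), badc_set d N m q := by
    intro s hs
    simp only [Set.mem_ofPred_eq, NoBad] at hs
    push Not at hs
    obtain ⟨A, c, hA, hc, a, l, ha, hl, hi⟩ := hs
    simp only [Set.mem_iUnion]
    refine ⟨(fun i j => ⟨A i j, Finset.mem_Icc.2 (abs_le.1 (hA i j))⟩,
      fun i => ⟨c i, Finset.mem_Icc.2 (abs_le.1 (hc i))⟩, a, l), Finset.mem_univ _, ha, hl, hi⟩
  have hone : ∀ q : badc_Idx d N m, (Set.ncard (badc_set d N m q) : ℝ) ≤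
      (2 ^ d) ^ N * Real.exp (-(12 / 25 * d * m)) := by
    intro q
    by_cases hq : Function.Injective q.2.2.1 ∧ (∀ i j, q.2.2.2 i ≠ q.2.2.1 j)
    · have hmN : m ≤ N := by
        have := Fintype.card_le_of_injective _ hq.1
        simpa using this
      have h3 := h2 (Fin d → Bool) N m (2 ^ d * Real.exp (-(12 / 25 * d)))
        (fun _ x y => ‖pt d x - G d (fun i j => (q.1 i j : ℤ)) (fun i => (q.2.1 i : ℤ))
          (pt d y)‖ ≤ 24 / 125) q.2.2.1 q.2.2.2 hq.1 hq.2 (fun i y => h1 d hd _)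
      have h4 : badc_set d N m q ⊆ {s : Fin N → (Fin d → Bool) | ∀ i,
          ‖pt d (s (q.2.2.1 i)) - G d (fun i j => (q.1 i j : ℤ)) (fun i => (q.2.1 i : ℤ))
          (pt d (s (q.2.2.2 i)))‖ ≤ 24 / 125} := fun s hs => hs.2.2
      have h5 : (Set.ncard (badc_set d N m q) : ℝ) ≤ (Set.ncard {s : Fin N → (Fin d → Bool) | ∀ i,
          ‖pt d (s (q.2.2.1 i)) - G d (fun i j => (q.1 i j : ℤ)) (fun i => (q.2.1 i : ℤ))
          (pt d (s (q.2.2.2 i)))‖ ≤ 24 / 125} : ℝ) := by
        exact_mod_cast Set.ncard_le_ncard h4 (Set.toFinite _)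
      refine h5.trans (h3.trans (le_of_eq ?_))
      rw [Fintype.card_fun, Fintype.card_bool, Fintype.card_fin, mul_pow, ← Real.exp_nat_mul]
      push_cast
      have h6 : ((2 : ℝ) ^ d) ^ N = (2 ^ d) ^ m * (2 ^ d) ^ (N - m) := by
        rw [← pow_add, Nat.add_sub_cancel' hmN]
      rw [h6]
      have h7 : (m : ℝ) * -(12 / 25 * (d : ℝ)) = -(12 / 25 * d * m) := by ring
      rw [h7]
      ring
    · have h3 : badc_set d N m q = ∅ := by
        ext s
        simp only [badc_set, Set.mem_ofPred_eq, Set.mem_empty_iff_false, iff_false]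
        intro hs
        exact hq ⟨hs.1, hs.2.1⟩
      rw [h3, Set.ncard_empty]
      simp only [Nat.cast_zero]
      positivity
  have hun : (Set.ncard (⋃ q ∈ (Finset.univ : Finset (badc_Idx d N m)), badc_set d N m q) : ℝ) ≤
      ∑ q : badc_Idx d N m, (Set.ncard (badc_set d N m q) : ℝ) := by
    have := Finset.univ.set_ncard_biUnion_le (fun q : badc_Idx d N m => badc_set d N m q)
    exact_mod_cast this
  calc (Set.ncard {s : Fin N → (Fin d → Bool) | ¬ NoBad m (fun k => pt d (s k))} : ℝ)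
      ≤ (Set.ncard (⋃ q ∈ (Finset.univ : Finset (badc_Idx d N m)), badc_set d N m q) : ℝ) := by
        exact_mod_cast Set.ncard_le_ncard hsub (Set.toFinite _)
    _ ≤ ∑ q : badc_Idx d N m, (Set.ncard (badc_set d N m q) : ℝ) := hun
    _ ≤ ∑ _q : badc_Idx d N m, (2 ^ d) ^ N * Real.exp (-(12 / 25 * d * m)) :=
        Finset.sum_le_sum fun q _ => hone q
    _ = (Fintype.card (badc_Idx d N m) : ℝ) * ((2 ^ d) ^ N * Real.exp (-(12 / 25 * d * m))) := by
        rw [Finset.sum_const, Finset.card_univ, nsmul_eq_mul]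
    _ ≤ ((6001 * d : ℝ) ^ (d ^ 2 + d) * (N : ℝ) ^ (2 * m)) *
        ((2 ^ d) ^ N * Real.exp (-(12 / 25 * d * m))) := by
        apply mul_le_mul_of_nonneg_right (badc_card d N m hd)
        positivity
    _ = _ := by ring

end Pool.Agent.Y373.NC
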