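import Pool.Agent.Y373.NC.Stm

/-!
# Block `S_cap` of project NC
-/

set_option autoImplicit false

namespace Pool.Agent.Y373.NC

open Set Metric Pool.Agent.Helper2.NewtonCover

theorem cap : S_cap := by
  classical
  intro d N w hw u T hu hT
  have hkap : kap ^ 2 = 2 / 5 := Real.sq_sqrt (by norm_num)
  have hkap0 : 0 ≤ kap := Real.sqrt_nonneg _
  set S : E d := ∑ i ∈ T, w i with hS
  have hu0 : 0 < ‖u‖ := norm_pos_iff.2 hu
  have h1 : (T.card : ℝ) * (7 / 10 * kap * ‖u‖) ≤ inner ℝ S u := by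
    rw [hS, sum_inner, ← nsmul_eq_mul]
    exact Finset.card_nsmul_le_sum T _ _ hT
  have h2 : inner ℝ S u ≤ ‖S‖ * ‖u‖ := real_inner_le_norm S u
  have h3 : (T.card : ℝ) * (7 / 10 * kap) ≤ ‖S‖ := by
    have : ((T.card : ℝ) * (7 / 10 * kap)) * ‖u‖ ≤ ‖S‖ * ‖u‖ := by
      calc ((T.card : ℝ) * (7 / 10 * kap)) * ‖u‖ = (T.card : ℝ) * (7 / 10 * kap * ‖u‖) := by ring
        _ ≤ _ := h1.trans h2
    exact le_of_mul_le_mul_right this hu0
  have h4 : ‖S‖ ^ 2 ≤ T.card + 19 / 100 * (T.card : ℝ) ^ 2 := by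
    rw [← real_inner_self_eq_norm_sq, hS, sum_inner]
    have h5 : ∀ i ∈ T, inner ℝ (w i) (∑ j ∈ T, w j) ≤ 1 + 19 / 100 * (T.card : ℝ) := by
      intro i hi
      rw [inner_sum, ← Finset.add_sum_erase T _ hi]
      have h6 : inner ℝ (w i) (w i) = 1 := by
        rw [real_inner_self_eq_norm_sq, hw.1 i]; norm_num
      have h7 : ∑ j ∈ T.erase i, inner ℝ (w i) (w j) ≤ ∑ j ∈ T.erase i, (19 / 100 : ℝ) :=
        Finset.sum_le_sum fun j hj => hw.2 i j (Finset.ne_of_mem_erase hj).symm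
      have h8 : ∑ j ∈ T.erase i, (19 / 100 : ℝ) ≤ 19 / 100 * (T.card : ℝ) := by
        rw [Finset.sum_const, nsmul_eq_mul, mul_comm]
        have : ((T.erase i).card : ℝ) ≤ T.card := by
          exact_mod_cast Finset.card_erase_le
        nlinarith
      linarith
    calc ∑ i ∈ T, inner ℝ (w i) (∑ j ∈ T, w j) ≤ ∑ i ∈ T, (1 + 19 / 100 * (T.card : ℝ)) :=
          Finset.sum_le_sum h5
      _ = T.card + 19 / 100 * (T.card : ℝ) ^ 2 := by
          rw [Finset.sum_const, nsmul_eq_mul]; ring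
  have h9 : ((T.card : ℝ) * (7 / 10 * kap)) ^ 2 ≤ ‖S‖ ^ 2 :=
    pow_le_pow_left₀ (by positivity) h3 2
  have h10 : ((T.card : ℝ) * (7 / 10 * kap)) ^ 2 = 49 / 250 * (T.card : ℝ) ^ 2 := by
    rw [mul_pow, mul_pow, hkap]; ring
  by_contra hcon
  push Not at hcon
  have h11 : (167 : ℝ) ≤ T.card := by exact_mod_cast hcon
  nlinarith

end Pool.Agent.Y373.NC
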