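import Pool.Agent.Y373.NC.Stm

/-!
# The counting lemma
-/

set_option autoImplicit false

namespace Pool.Agent.Y373.NC

open Set

private theorem cnt_main (Ω : Type) [Fintype Ω] [Nonempty Ω] (N m : ℕ) (B : ℝ)
    (P : Fin m → Ω → Ω → Prop) (a l : Fin m → Fin N) (ha : Function.Injective a)
    (hl : ∀ i j, l i ≠ a j) (hB : ∀ i y, (Set.ncard {x : Ω | P i x y} : ℝ) ≤ B) :
    (Set.ncard {s : Fin N → Ω | ∀ i, P i (s (a i)) (s (l i))} : ℝ) ≤
      B ^ m * (Fintype.card Ω : ℝ) ^ (N - m) := by
  classical
  let R := {j : Fin N // j ∉ Set.range a}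
  have hR : Fintype.card R = N - m := by
    have h1 : Fintype.card {j : Fin N // j ∉ Set.range a} =
        Fintype.card (Fin N) - Fintype.card {j : Fin N // j ∈ Set.range a} :=
      Fintype.card_subtype_compl _
    have h2 : Fintype.card {j : Fin N // j ∈ Set.range a} = m := by
      exact (Fintype.card_congr (Equiv.ofInjective a ha)).symm.trans (Fintype.card_fin m)
    rw [show Fintype.card R = _ from h1, h2, Fintype.card_fin]
  let lr : Fin m → R := fun i => ⟨l i, by rintro ⟨j, hj⟩; exact hl i j hj.symm⟩
  -- the sigma type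
  let S : (R → Ω) → Finset (Fin m → Ω) := fun r =>
    Fintype.piFinset (fun i => Finset.univ.filter (fun x => P i x (r (lr i))))
  have hS : ∀ r, ((S r).card : ℝ) ≤ B ^ m := by
    intro r
    rw [Fintype.card_piFinset]
    push_cast
    calc ∏ i : Fin m, ((Finset.univ.filter (fun x => P i x (r (lr i)))).card : ℝ)
        ≤ ∏ _i : Fin m, B := by
          apply Finset.prod_le_prod
          · intro i _; positivity
          · intro i _
            have := hB i (r (lr i))
            rwa [Set.ncard_eq_toFinset_card', Set.toFinset_ofPred] at this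
      _ = B ^ m := by simp
  have hinj : Set.ncard {s : Fin N → Ω | ∀ i, P i (s (a i)) (s (l i))} ≤
      (Finset.univ.sigma S).card := by
    rw [Set.ncard_eq_toFinset_card']
    apply Finset.card_le_card_of_injOn
      (fun s => (⟨fun j : R => s j, fun i => s (a i)⟩ : (_ : R → Ω) × (Fin m → Ω)))
    · intro s hs
      simp only [Finset.mem_coe, Set.mem_toFinset, Set.mem_ofPred_eq] at hs
      simp only [Finset.coe_sigma, Set.mem_sigma_iff, Finset.coe_univ, Set.mem_univ, true_and,
        Finset.mem_coe, S, Fintype.mem_piFinset, Finset.mem_filter, Finset.mem_univ]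
      exact hs
    · intro s _ t _ hst
      simp only [Sigma.mk.injEq, heq_eq_eq] at hst
      funext j
      by_cases hj : j ∈ Set.range a
      · obtain ⟨i, rfl⟩ := hj
        exact congrFun hst.2 i
      · exact congrFun hst.1 ⟨j, hj⟩
  calc (Set.ncard {s : Fin N → Ω | ∀ i, P i (s (a i)) (s (l i))} : ℝ)
      ≤ ((Finset.univ.sigma S).card : ℝ) := by exact_mod_cast hinj
    _ = ∑ r : R → Ω, ((S r).card : ℝ) := by rw [Finset.card_sigma]; push_cast; rfl
    _ ≤ ∑ _r : R → Ω, B ^ m := Finset.sum_le_sum fun r _ => hS r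
    _ = B ^ m * (Fintype.card Ω : ℝ) ^ (N - m) := by
        rw [Finset.sum_const, nsmul_eq_mul, Finset.card_univ, Fintype.card_fun, hR]
        push_cast
        ring

theorem cnt : S_cnt := by
  intro Ω _ N m B P a l ha hl hB
  rcases isEmpty_or_nonempty Ω with hΩ | hΩ
  · have hm : m ≤ N := by simpa using Fintype.card_le_of_injective a ha
    rcases Nat.eq_zero_or_pos N with hN | hN
    · have hm0 : m = 0 := by omega
      subst hN; subst hm0
      simp only [pow_zero, tsub_self, mul_one]
      have : Set.ncard {s : Fin 0 → Ω | ∀ i : Fin 0, P i (s (a i)) (s (l i))} ≤ 1 := by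
        rw [Set.ncard_le_one]
        intro x _ y _
        exact Subsingleton.elim _ _
      exact_mod_cast this
    · have h0 : Set.ncard {s : Fin N → Ω | ∀ i, P i (s (a i)) (s (l i))} = 0 := by
        have : IsEmpty (Fin N → Ω) := ⟨fun s => hΩ.elim (s ⟨0, hN⟩)⟩
        rw [Set.ncard_eq_zero]
        exact Set.eq_empty_of_isEmpty _
      rw [h0]
      have hlt : m < N ∨ m = N := by omega
      rcases hlt with h | h
      · simp [Nat.sub_ne_zero_of_lt h]
      · exfalso
        have hsurj : Function.Surjective a := by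
          have hbij : Function.Bijective a :=
            (Fintype.bijective_iff_injective_and_card a).2 ⟨ha, by simp [h]⟩
          exact hbij.2
        have hmpos : 0 < m := by omega
        obtain ⟨j, hj⟩ := hsurj (l ⟨0, hmpos⟩)
        exact hl ⟨0, hmpos⟩ j hj.symm
  · exact cnt_main Ω N m B P a l ha hl hB

end Pool.Agent.Y373.NC
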