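import Pool.Agent.Y373.NC.Stm

/-!
# One congruent copy covers few of the points (job of helper186)
-/

set_option autoImplicit false

namespace Pool.Agent.Y373.NC

open Set Metric Pool.Agent.Helper2.NewtonCover

private theorem copy_ncard {N n : ℕ} (p : Fin N → Prop)
    (h : ∀ T : Finset (Fin N), (∀ i ∈ T, p i) → T.card ≤ n) : Set.ncard {k | p k} ≤ n := by
  classical
  have := h (Finset.univ.filter p) (by simp)
  rw [Set.ncard_eq_toFinset_card']
  convert this using 2
  ext k
  simp

private theorem copy_kap : kap ^ 2 = 2 / 5 ∧ 0 < kap := by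
  unfold kap
  exact ⟨Real.sq_sqrt (by norm_num), Real.sqrt_pos.2 (by norm_num)⟩

theorem copy (h1 : S_spike) (h2 : S_hull) (h3 : S_cap) (h4 : S_pair) (h5 : S_body) : S_copy := by
  intro d N m v hv hm g
  obtain ⟨hk2, hk0⟩ := copy_kap
  obtain ⟨-, hK1, -⟩ := h5 d N v hv
  set U := g.toRealLinearIsometryEquiv with hU
  have hUx : ∀ x, U x = g x - g 0 := fun x => IsometryEquiv.toRealLinearIsometryEquiv_apply g x
  set c := g 0 with hc
  -- the three classes
  have hA : Set.ncard {k : Fin N | ‖v k - c‖ ^ 2 ≤ 199 / 250} ≤ 166 := by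
    by_cases hc0 : c = 0
    · have : {k : Fin N | ‖v k - c‖ ^ 2 ≤ 199 / 250} = ∅ := by
        ext k
        simp only [mem_setOf_eq, mem_empty_iff_false, iff_false, hc0, sub_zero, hv.1 k]
        norm_num
      rw [this]; simp
    · refine copy_ncard _ fun T hT => h3 d N v hv c T hc0 fun i hi => ?_
      have e1 := hT i hi
      rw [norm_sub_sq_real, hv.1 i] at e1
      nlinarith [sq_nonneg (‖c‖ - 7 / 10 * kap)]
  have hB := hm g
  have hC : Set.ncard {k : Fin N | v k - (U (v k) + c) ≠ 0 ∧
      ‖v k - (U (v k) + c)‖ ≤ 3 / 10 * kap ∧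
      kap * ‖v k - (U (v k) + c)‖ ≤ - inner ℝ (U (v k)) (v k - (U (v k) + c))} ≤ 332 :=
    copy_ncard _ fun T hT => h4 d N v hv U c T hT
  have hsub : {k : Fin N | v k ∈ interior (g '' hedge v)} ⊆
      ({k : Fin N | ‖v k - c‖ ^ 2 ≤ 199 / 250} ∪
        {k : Fin N | ∃ l, l ≠ k ∧ ‖v k - g (v l)‖ ≤ 19 / 100}) ∪
      {k : Fin N | v k - (U (v k) + c) ≠ 0 ∧ ‖v k - (U (v k) + c)‖ ≤ 3 / 10 * kap ∧
        kap * ‖v k - (U (v k) + c)‖ ≤ - inner ℝ (U (v k)) (v k - (U (v k) + c))} := by
    intro k hk
    have hk' : v k ∈ g '' interior (hedge v) := by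
      have := g.toHomeomorph.image_interior (hedge v)
      change v k ∈ interior (g '' hedge v) at hk
      have e : g.toHomeomorph '' hedge v = g '' hedge v := rfl
      rw [e] at this
      rw [← this] at hk
      exact hk
    obtain ⟨x, hx, hxk⟩ := hk'
    have hx1 : ‖x‖ < 1 := by
      have : x ∈ interior (closedBall (0 : E d) 1) := interior_mono hK1 hx
      rw [interior_closedBall _ one_ne_zero, mem_ball_zero_iff] at this
      exact this
    have hxK := interior_subset hx
    have hnx : ‖v k - c‖ = ‖x‖ := by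
      rw [← hxk, hc, ← dist_eq_norm, g.isometry.dist_eq, dist_zero_right]
    rcases h2 d N v hv x hxK with hb | ⟨l, hl⟩
    · left; left
      rw [mem_closedBall_zero_iff] at hb
      change ‖v k - c‖ ^ 2 ≤ 199 / 250
      rw [hnx]
      have hb2 : b ^ 2 = 3 / 5 := by
        unfold b; exact Real.sq_sqrt (by norm_num)
      nlinarith [norm_nonneg x]
    · obtain ⟨s1, s2⟩ := h1 d (v l) x (hv.1 l) hl
      rcases le_or_gt (3 / 10 * kap) ‖x - v l‖ with h9 | h9
      · left; left
        change ‖v k - c‖ ^ 2 ≤ 199 / 250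
        rw [hnx]
        exact s2 h9
      · have hg : ‖v k - g (v l)‖ = ‖x - v l‖ := by
          rw [← hxk, ← dist_eq_norm, g.isometry.dist_eq, dist_eq_norm]
        by_cases hlk : l = k
        · subst hlk
          right
          have hD : v l - (U (v l) + c) = U (x - v l) := by
            rw [map_sub, hUx, hUx, ← hxk]
            abel
          refine ⟨?_, ?_, ?_⟩
          · rw [hD]
            intro h0
            have h0' : x - v l = 0 := by
              have := U.norm_map (x - v l)
              rw [h0, norm_zero] at this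
              exact norm_eq_zero.1 this.symm
            rw [sub_eq_zero.1 h0', hv.1 l] at hx1
            exact lt_irrefl _ hx1
          · rw [hD, U.norm_map]
            exact h9.le
          · rw [hD, U.norm_map, U.inner_map_map]
            exact s1
        · left; right
          refine ⟨l, hlk, ?_⟩
          rw [hg]
          nlinarith
  calc Set.ncard {k : Fin N | v k ∈ interior (g '' hedge v)}
      ≤ _ := Set.ncard_le_ncard hsub (Set.toFinite _)
    _ ≤ _ := Set.ncard_union_le _ _
    _ ≤ _ := Nat.add_le_add_right (Set.ncard_union_le _ _) _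
    _ ≤ 498 + m := by omega

end Pool.Agent.Y373.NC
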