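import Pool.Agent.Y373.NC.Stm

/-!
# Existence of the points (NC-EXIST, helper908)
-/

set_option autoImplicit false

namespace Pool.Agent.Y373.NC

open Set Metric Pool.Agent.Helper2.NewtonCover

theorem exist (h1 : S_sepc) (h2 : S_badc) (h3 : S_num) (h4 : S_match) : S_exist := by
  classical
  obtain ⟨d₀, hd₀⟩ := h3
  refine ⟨max d₀ 1, fun d hd N hN => ?_⟩
  have hd1 : 1 ≤ d := (le_max_right _ _).trans hd
  have hnum := hd₀ d ((le_max_left _ _).trans hd) (N : ℝ) (Nat.cast_nonneg N) hN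
  by_contra hcon
  have key : ∀ s : Fin N → (Fin d → Bool), (¬ Sep (fun k => pt d (s k))) ∨
      ¬ NoBad (d ^ 2) (fun k => pt d (s k)) := by
    intro s
    by_contra hs
    push Not at hs
    exact hcon ⟨fun k => pt d (s k), hs.1, h4 d N (d ^ 2) _ hd1 hs.1 hs.2⟩
  have hu : (Set.univ : Set (Fin N → (Fin d → Bool))) ⊆
      {s | ¬ Sep (fun k => pt d (s k))} ∪ {s | ¬ NoBad (d ^ 2) (fun k => pt d (s k))} :=
    fun s _ => key s
  have hc : ((2 : ℝ) ^ d) ^ N ≤ (Set.ncard {s : Fin N → (Fin d → Bool) |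
      ¬ Sep (fun k => pt d (s k))} : ℝ) + (Set.ncard {s : Fin N → (Fin d → Bool) |
      ¬ NoBad (d ^ 2) (fun k => pt d (s k))} : ℝ) := by
    have h5 : (Set.univ : Set (Fin N → (Fin d → Bool))).ncard ≤
        Set.ncard {s : Fin N → (Fin d → Bool) | ¬ Sep (fun k => pt d (s k))} +
        Set.ncard {s : Fin N → (Fin d → Bool) | ¬ NoBad (d ^ 2) (fun k => pt d (s k))} :=
      (Set.ncard_le_ncard hu (Set.toFinite _)).trans (Set.ncard_union_le _ _)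
    rw [Set.ncard_univ, Nat.card_eq_fintype_card, Fintype.card_fun, Fintype.card_fun,
      Fintype.card_bool, Fintype.card_fin, Fintype.card_fin] at h5
    exact_mod_cast h5
  have h6 := h1 d N hd1
  have h7 := h2 d N (d ^ 2) hd1
  have hp : (0 : ℝ) < (2 ^ d) ^ N := by positivity
  have h8 : ((2 : ℝ) ^ d) ^ N * ((N : ℝ) ^ 2 * Real.exp (-(361 / 20000 * d)) +
      (6001 * d : ℝ) ^ (d ^ 2 + d) * (N : ℝ) ^ (2 * d ^ 2) *
        Real.exp (-(12 / 25 * d * (d ^ 2 : ℕ)))) < (2 ^ d) ^ N * 1 :=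
    mul_lt_mul_of_pos_left hnum hp
  have h9 : ((2 : ℝ) ^ d) ^ N ≤ (2 ^ d) ^ N * ((N : ℝ) ^ 2 * Real.exp (-(361 / 20000 * d)) +
      (6001 * d : ℝ) ^ (d ^ 2 + d) * (N : ℝ) ^ (2 * d ^ 2) *
        Real.exp (-(12 / 25 * d * (d ^ 2 : ℕ)))) := by
    calc ((2 : ℝ) ^ d) ^ N ≤ _ := hc
      _ ≤ (N : ℝ) ^ 2 * (2 ^ d) ^ N * Real.exp (-(361 / 20000 * d)) +
        (6001 * d : ℝ) ^ (d ^ 2 + d) * (N : ℝ) ^ (2 * d ^ 2) * (2 ^ d) ^ N *
        Real.exp (-(12 / 25 * d * (d ^ 2 : ℕ))) := add_le_add h6 h7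
      _ = _ := by ring
  linarith

end Pool.Agent.Y373.NC
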