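import Pool.Agent.Y373.NC.Stm

set_option autoImplicit false

namespace Pool.Agent.Y373.NC

open Set Metric Pool.Agent.Helper2.NewtonCover

/-- the lower bound for all large dimensions -/
theorem lower_large (hl : S_low) (hb : S_body) (he : S_exist) (hn : S_num2) :
    ∃ d₀ : ℕ, ∀ d : ℕ, d₀ ≤ d → ∃ C : Set (E d), IsBody C ∧ (1009 / 1000 : ℝ) ^ d ≤ newton C := by
  obtain ⟨d1, h1⟩ := he
  obtain ⟨d2, h2⟩ := hn
  refine ⟨max d1 d2, fun d hd => ?_⟩
  set N : ℕ := ⌊Real.exp (9 / 1000 * d)⌋₊ with hN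
  obtain ⟨v, hv, hm⟩ := h1 d ((le_max_left _ _).trans hd) N (Nat.floor_le (Real.exp_pos _).le)
  have hbody := (hb d N v hv).1
  refine ⟨hedge v, hbody, ?_⟩
  have h3 := hl d N (3 * d ^ 2) (newton (hedge v)) v hv hm (covers_newton hbody)
  have h4 := h2 d ((le_max_right _ _).trans hd)
  rw [← hN] at h4
  have h5 : (N : ℝ) ≤ (newton (hedge v) : ℝ) * (498 + 3 * d ^ 2) := by exact_mod_cast h3
  have h6 : (0 : ℝ) < 498 + 3 * d ^ 2 := by positivity
  exact le_of_mul_le_mul_right (h4.trans h5) h6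

/-- `M(d)` exists and lies between two exponential functions -/
theorem main (hl : S_low) (hb : S_body) (he : S_exist) (hn : S_num2) (hu : S_upper) :
    (∃ d₀ : ℕ, ∀ d : ℕ, d₀ ≤ d → ∃ C : Set (E d), IsBody C ∧ (1.009 : ℝ) ^ d ≤ newton C) ∧
    ∃ c : ℝ, 1 < c ∧ ∀ d : ℕ, 1 ≤ d → ∃ M : ℕ,
      IsGreatest {m : ℕ | ∃ C : Set (E d), IsBody C ∧ newton C = m} M ∧
      c ^ d ≤ M ∧ M ≤ 7 ^ d := by
  obtain ⟨d₀, h0⟩ := lower_large hl hb he hn
  refine ⟨⟨d₀, fun d hd => ?_⟩, ?_⟩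
  · obtain ⟨C, hC, h⟩ := h0 d hd
    refine ⟨C, hC, ?_⟩
    have : (1.009 : ℝ) = 1009 / 1000 := by norm_num
    rw [this]; exact h
  · set c₁ : ℝ := (2 : ℝ) ^ ((1 : ℝ) / (d₀ + 1)) with hc1
    have hc1g : 1 < c₁ := Real.one_lt_rpow (by norm_num) (by positivity)
    have hc1p : ∀ d : ℕ, d ≤ d₀ → c₁ ^ d ≤ 2 := by
      intro d hd
      have h1 : c₁ ^ (d₀ + 1) = 2 := by
        rw [hc1, ← Real.rpow_natCast, ← Real.rpow_mul (by norm_num)]
        have : (1 : ℝ) / (d₀ + 1) * ((d₀ + 1 : ℕ) : ℝ) = 1 := by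
          push_cast
          field_simp
        rw [this, Real.rpow_one]
      calc c₁ ^ d ≤ c₁ ^ (d₀ + 1) := pow_le_pow_right₀ hc1g.le (by omega)
        _ = 2 := h1
    refine ⟨min c₁ (1009 / 1000), lt_min hc1g (by norm_num), fun d hd => ?_⟩
    have hfin : (∃ M : ℕ, IsGreatest {m : ℕ | ∃ C : Set (E d), IsBody C ∧ newton C = m} M) := by
      have hne : {m : ℕ | ∃ C : Set (E d), IsBody C ∧ newton C = m}.Nonempty :=
        ⟨_, closedBall (0 : E d) 1, isBody_ball, rfl⟩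
      have hbd : BddAbove {m : ℕ | ∃ C : Set (E d), IsBody C ∧ newton C = m} := by
        refine ⟨7 ^ d, ?_⟩
        rintro m ⟨C, hC, rfl⟩
        exact hu d hd C hC
      exact ⟨sSup _, Nat.sSup_mem hne hbd, fun m hm => le_csSup hbd hm⟩
    obtain ⟨M, hM⟩ := hfin
    refine ⟨M, hM, ?_, ?_⟩
    · have hmin0 : (0 : ℝ) ≤ min c₁ (1009 / 1000) := le_min (by linarith) (by norm_num)
      by_cases hdd : d₀ ≤ d
      · obtain ⟨C, hC, h⟩ := h0 d hdd
        calc (min c₁ (1009 / 1000)) ^ d ≤ (1009 / 1000 : ℝ) ^ d :=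
              pow_le_pow_left₀ hmin0 (min_le_right _ _) d
          _ ≤ newton C := h
          _ ≤ M := by exact_mod_cast hM.2 ⟨C, hC, rfl⟩
      · push Not at hdd
        calc (min c₁ (1009 / 1000)) ^ d ≤ c₁ ^ d := pow_le_pow_left₀ hmin0 (min_le_left _ _) d
          _ ≤ 2 := hc1p d hdd.le
          _ ≤ ((d + 1 : ℕ) : ℝ) := by
              have : (1 : ℝ) ≤ d := by exact_mod_cast hd
              push_cast
              linarith
          _ ≤ newton (closedBall (0 : E d) 1) := by exact_mod_cast ball_lower hd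
          _ ≤ M := by exact_mod_cast hM.2 ⟨_, isBody_ball, rfl⟩
    · obtain ⟨C, hC, h⟩ := hM.1
      rw [← h]
      exact hu d hd C hC

end Pool.Agent.Y373.NC
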