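import Pool.Agent.Y373.NC.Stm

/-!
# Hoeffding's inequality for sign vectors (job of helper186)
-/

set_option autoImplicit false

namespace Pool.Agent.Y373.NC

open Set Metric Pool.Agent.Helper2.NewtonCover

private noncomputable def hoef_e (b : Bool) : ℝ := if b then 1 else -1

private theorem hoef_inner {d : ℕ} (s : Fin d → Bool) (u : E d) :
    inner ℝ (pt d s) u = (∑ i, hoef_e (s i) * u i) / √d := by
  rw [PiLp.inner_apply, Finset.sum_div]
  refine Finset.sum_congr rfl fun i _ => ?_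
  simp only [pt, hoef_e, RCLike.inner_apply, conj_trivial]
  ring

private theorem hoef_sum {d : ℕ} (L : ℝ) (u : E d) (hu : ‖u‖ = 1) :
    ∑ s : Fin d → Bool, Real.exp (L * ∑ i, hoef_e (s i) * u i) ≤
      2 ^ d * Real.exp (L ^ 2 / 2) := by
  have e1 : ∑ s : Fin d → Bool, Real.exp (L * ∑ i, hoef_e (s i) * u i) =
      ∏ i : Fin d, ∑ b : Bool, Real.exp (L * (hoef_e b * u i)) := by
    rw [Finset.prod_univ_sum]
    rw [Fintype.piFinset_univ]
    refine Finset.sum_congr rfl fun s _ => ?_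
    rw [Finset.mul_sum, Real.exp_sum]
  have e2 : ∀ i : Fin d, ∑ b : Bool, Real.exp (L * (hoef_e b * u i)) ≤
      2 * Real.exp (L ^ 2 * (u i) ^ 2 / 2) := by
    intro i
    rw [Fintype.sum_bool]
    have h1 := Real.cosh_le_exp_half_sq (L * u i)
    rw [Real.cosh_eq] at h1
    have a1 : L * (hoef_e true * u i) = L * u i := by simp [hoef_e]
    have a2 : L * (hoef_e false * u i) = -(L * u i) := by simp [hoef_e]
    rw [a1, a2]
    have a3 : (L * u i) ^ 2 / 2 = L ^ 2 * (u i) ^ 2 / 2 := by ring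
    rw [a3] at h1
    linarith
  have e3 : ∑ i, (u i) ^ 2 = 1 := by
    have := EuclideanSpace.norm_sq_eq u
    rw [hu] at this
    simp only [Real.norm_eq_abs, sq_abs, one_pow] at this
    exact this.symm
  rw [e1]
  calc ∏ i : Fin d, ∑ b : Bool, Real.exp (L * (hoef_e b * u i))
      ≤ ∏ i : Fin d, (2 * Real.exp (L ^ 2 * (u i) ^ 2 / 2)) :=
        Finset.prod_le_prod (fun i _ => Finset.sum_nonneg fun b _ => (Real.exp_pos _).le)
          fun i _ => e2 i
    _ = 2 ^ d * Real.exp (L ^ 2 / 2) := by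
        rw [Finset.prod_mul_distrib, Finset.prod_const, Finset.card_univ, Fintype.card_fin,
          ← Real.exp_sum, ← Finset.sum_div, ← Finset.mul_sum, e3, mul_one]

theorem hoef : S_hoef := by
  intro d hd u hu t ht
  classical
  have hd0 : (0 : ℝ) < d := by exact_mod_cast hd
  have hs0 : 0 < √(d : ℝ) := Real.sqrt_pos.2 hd0
  set L := t * √(d : ℝ) with hL
  have hL2 : L ^ 2 = t ^ 2 * d := by
    rw [hL, mul_pow, Real.sq_sqrt hd0.le]
  have hL0 : 0 ≤ L := mul_nonneg ht hs0.le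
  have key := hoef_sum L u hu
  set S : Finset (Fin d → Bool) := Finset.univ.filter fun s => t ≤ inner ℝ (pt d s) u with hS
  have hcard : Set.ncard {s : Fin d → Bool | t ≤ inner ℝ (pt d s) u} = S.card := by
    rw [Set.ncard_eq_toFinset_card']
    congr 1
    ext s
    simp [hS]
  have h1 : (S.card : ℝ) * Real.exp (L ^ 2) ≤
      ∑ s : Fin d → Bool, Real.exp (L * ∑ i, hoef_e (s i) * u i) := by
    calc (S.card : ℝ) * Real.exp (L ^ 2) = ∑ s ∈ S, Real.exp (L ^ 2) := by
          rw [Finset.sum_const, nsmul_eq_mul]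
      _ ≤ ∑ s ∈ S, Real.exp (L * ∑ i, hoef_e (s i) * u i) := by
          refine Finset.sum_le_sum fun s hs => Real.exp_le_exp.2 ?_
          rw [hS, Finset.mem_filter] at hs
          have h2 := hs.2
          rw [hoef_inner, le_div_iff₀ hs0] at h2
          rw [sq]
          exact mul_le_mul_of_nonneg_left h2 hL0
      _ ≤ _ := Finset.sum_le_sum_of_subset_of_nonneg (Finset.filter_subset _ _)
          fun s _ _ => (Real.exp_pos _).le
  rw [hcard]
  have h2 : (S.card : ℝ) * Real.exp (L ^ 2) ≤ 2 ^ d * Real.exp (L ^ 2 / 2) := h1.trans key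
  have h3 : Real.exp (-(t ^ 2 * d / 2)) * Real.exp (L ^ 2) = Real.exp (L ^ 2 / 2) := by
    rw [← Real.exp_add, hL2]
    congr 1
    ring
  have h4 : (S.card : ℝ) * Real.exp (L ^ 2) ≤
      (2 ^ d * Real.exp (-(t ^ 2 * d / 2))) * Real.exp (L ^ 2) := by
    rw [mul_assoc, h3]
    exact h2
  exact le_of_mul_le_mul_right h4 (Real.exp_pos _)

private theorem hoef_norm {d : ℕ} (hd : 1 ≤ d) (s : Fin d → Bool) : ‖pt d s‖ = 1 := by
  have hd0 : (0 : ℝ) < d := by exact_mod_cast hd
  have h1 : ‖pt d s‖ ^ 2 = 1 := by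
    rw [EuclideanSpace.norm_sq_eq]
    have : ∀ i : Fin d, ‖(pt d s) i‖ ^ 2 = 1 / d := by
      intro i
      simp only [pt, Real.norm_eq_abs, sq_abs, div_pow, Real.sq_sqrt hd0.le]
      congr 1
      split_ifs <;> norm_num
    rw [Finset.sum_congr rfl fun i _ => this i, Finset.sum_const, Finset.card_univ,
      Fintype.card_fin, nsmul_eq_mul]
    field_simp
  have h2 := norm_nonneg (pt d s)
  nlinarith

theorem ball_count (h : S_hoef) : S_ball := by
  intro d hd y
  have hd0 : (0 : ℝ) < d := by exact_mod_cast hd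
  by_cases hy : y = 0
  · have : {s : Fin d → Bool | ‖pt d s - y‖ ≤ 24 / 125} = ∅ := by
      ext s
      simp only [mem_setOf_eq, mem_empty_iff_false, iff_false, hy, sub_zero, hoef_norm hd s]
      norm_num
    rw [this]
    simp only [Set.ncard_empty, Nat.cast_zero]
    positivity
  have hy0 : 0 < ‖y‖ := norm_pos_iff.2 hy
  set t : ℝ := √(15049 / 15625) with ht
  have ht2 : t ^ 2 = 15049 / 15625 := Real.sq_sqrt (by norm_num)
  have ht0 : 0 ≤ t := Real.sqrt_nonneg _
  have hu : ‖(‖y‖⁻¹ • y : E d)‖ = 1 := by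
    rw [norm_smul, norm_inv, norm_norm, inv_mul_cancel₀ hy0.ne']
  have hsub : {s : Fin d → Bool | ‖pt d s - y‖ ≤ 24 / 125} ⊆
      {s : Fin d → Bool | t ≤ inner ℝ (pt d s) (‖y‖⁻¹ • y : E d)} := by
    intro s hs
    change ‖pt d s - y‖ ≤ 24 / 125 at hs
    change t ≤ inner ℝ (pt d s) (‖y‖⁻¹ • y : E d)
    rw [real_inner_smul_right]
    have h1 : ‖pt d s - y‖ ^ 2 ≤ (24 / 125) ^ 2 := by
      have := norm_nonneg (pt d s - y)
      gcongr
    rw [norm_sub_sq_real, hoef_norm hd s] at h1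
    rw [← div_eq_inv_mul, le_div_iff₀ hy0]
    nlinarith [sq_nonneg (‖y‖ - t)]
  calc (Set.ncard {s : Fin d → Bool | ‖pt d s - y‖ ≤ 24 / 125} : ℝ)
      ≤ (Set.ncard {s : Fin d → Bool | t ≤ inner ℝ (pt d s) (‖y‖⁻¹ • y : E d)} : ℝ) := by
        exact_mod_cast Set.ncard_le_ncard hsub (Set.toFinite _)
    _ ≤ 2 ^ d * Real.exp (-(t ^ 2 * d / 2)) := h d hd _ hu t ht0
    _ ≤ 2 ^ d * Real.exp (-(12 / 25 * d)) := by
        refine mul_le_mul_of_nonneg_left (Real.exp_le_exp.2 ?_) (by positivity)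
        rw [ht2]
        nlinarith

end Pool.Agent.Y373.NC
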