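import Pool.Agent.Y373.NC.Stm

/-!
# Block `S_hull` of project NC
-/

set_option autoImplicit false

namespace Pool.Agent.Y373.NC

open Set Metric Pool.Agent.Helper2.NewtonCover

private theorem hull_mid {d N : ℕ} {v : Fin N → E d} (hv : Sep v) {i j : Fin N} (hij : i ≠ j) :
    ‖v i + v j‖ ≤ 2 * b := by
  have hb : b ^ 2 = 3 / 5 := Real.sq_sqrt (by norm_num)
  have hb0 : 0 ≤ b := Real.sqrt_nonneg _
  have h1 := norm_add_sq_real (v i) (v j)
  have h2 := hv.2 i j hij
  rw [hv.1 i, hv.1 j] at h1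
  refine abs_le_of_sq_le_sq' ?_ (by positivity) |>.2
  nlinarith

/-- membership in the ball or in a cap -/
private def hull_mem {d N : ℕ} (v : Fin N → E d) (x : E d) : Prop :=
  ‖x‖ ≤ b ∨ ∃ i, ∃ s : ℝ, 0 ≤ s ∧ s ≤ 1 ∧ ‖x - s • v i‖ ≤ (1 - s) * b

private theorem hull_two {d N : ℕ} {v : Fin N → E d} (hv : Sep v) {x y : E d} {i j : Fin N}
    {s t p q : ℝ} (hp : 0 ≤ p) (hq : 0 ≤ q) (hpq : p + q = 1) (hs : 0 ≤ s) (hs1 : s ≤ 1)
    (ht : 0 ≤ t) (_ht1 : t ≤ 1) (hx : ‖x - s • v i‖ ≤ (1 - s) * b)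
    (hy : ‖y - t • v j‖ ≤ (1 - t) * b) (hij : i ≠ j) (hle : q * t ≤ p * s) :
    hull_mem v (p • x + q • y) := by
  right
  refine ⟨i, p * s - q * t, by linarith, ?_, ?_⟩
  · have : p * s ≤ 1 * 1 := mul_le_mul (by linarith) hs1 hs zero_le_one
    have : 0 ≤ q * t := mul_nonneg hq ht
    linarith
  · have e : p • x + q • y - (p * s - q * t) • v i =
        p • (x - s • v i) + q • (y - t • v j) + (q * t) • (v i + v j) := by
      module
    rw [e]
    have h1 : ‖p • (x - s • v i)‖ ≤ p * ((1 - s) * b) := by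
      rw [norm_smul, Real.norm_of_nonneg hp]
      exact mul_le_mul_of_nonneg_left hx hp
    have h2 : ‖q • (y - t • v j)‖ ≤ q * ((1 - t) * b) := by
      rw [norm_smul, Real.norm_of_nonneg hq]
      exact mul_le_mul_of_nonneg_left hy hq
    have h3 : ‖(q * t) • (v i + v j)‖ ≤ (q * t) * (2 * b) := by
      rw [norm_smul, Real.norm_of_nonneg (mul_nonneg hq ht)]
      exact mul_le_mul_of_nonneg_left (hull_mid hv hij) (mul_nonneg hq ht)
    calc ‖p • (x - s • v i) + q • (y - t • v j) + (q * t) • (v i + v j)‖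
        ≤ ‖p • (x - s • v i)‖ + ‖q • (y - t • v j)‖ + ‖(q * t) • (v i + v j)‖ := norm_add₃_le
      _ ≤ p * ((1 - s) * b) + q * ((1 - t) * b) + (q * t) * (2 * b) := by linarith
      _ = (p + q - (p * s - q * t)) * b := by ring
      _ = (1 - (p * s - q * t)) * b := by rw [hpq]

private theorem hull_one {d N : ℕ} {v : Fin N → E d} {x y : E d} {i : Fin N}
    {s p q : ℝ} (hp : 0 ≤ p) (hq : 0 ≤ q) (hpq : p + q = 1) (hs : 0 ≤ s) (hs1 : s ≤ 1)
    (hx : ‖x - s • v i‖ ≤ (1 - s) * b) (hy : ‖y‖ ≤ b) : hull_mem v (p • x + q • y) := by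
  right
  refine ⟨i, p * s, mul_nonneg hp hs, ?_, ?_⟩
  · have : p * s ≤ 1 * 1 := mul_le_mul (by linarith) hs1 hs zero_le_one
    linarith
  · have e : p • x + q • y - (p * s) • v i = p • (x - s • v i) + q • y := by module
    rw [e]
    have h1 : ‖p • (x - s • v i)‖ ≤ p * ((1 - s) * b) := by
      rw [norm_smul, Real.norm_of_nonneg hp]
      exact mul_le_mul_of_nonneg_left hx hp
    have h2 : ‖q • y‖ ≤ q * b := by
      rw [norm_smul, Real.norm_of_nonneg hq]
      exact mul_le_mul_of_nonneg_left hy hq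
    calc ‖p • (x - s • v i) + q • y‖ ≤ ‖p • (x - s • v i)‖ + ‖q • y‖ := norm_add_le _ _
      _ ≤ p * ((1 - s) * b) + q * b := by linarith
      _ = (p + q - p * s) * b := by ring
      _ = (1 - p * s) * b := by rw [hpq]

private theorem hull_convex {d N : ℕ} {v : Fin N → E d} (hv : Sep v) :
    Convex ℝ {x | hull_mem v x} := by
  have hb0 : 0 ≤ b := Real.sqrt_nonneg _
  intro x hx y hy p q hp hq hpq
  rw [mem_setOf_eq] at hx hy ⊢
  rcases hx with hx | ⟨i, s, hs, hs1, hx⟩ <;> rcases hy with hy | ⟨j, t, ht, ht1, hy⟩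
  · left
    calc ‖p • x + q • y‖ ≤ ‖p • x‖ + ‖q • y‖ := norm_add_le _ _
      _ = p * ‖x‖ + q * ‖y‖ := by
          rw [norm_smul, norm_smul, Real.norm_of_nonneg hp, Real.norm_of_nonneg hq]
      _ ≤ p * b + q * b := by gcongr
      _ = b := by rw [← add_mul, hpq, one_mul]
  · rw [add_comm (p • x)]
    exact hull_one hq hp (by linarith) ht ht1 hy hx
  · exact hull_one hp hq hpq hs hs1 hx hy
  · by_cases hij : i = j
    · subst hij
      right
      refine ⟨i, p * s + q * t, by positivity, ?_, ?_⟩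
      · nlinarith
      · have e : p • x + q • y - (p * s + q * t) • v i =
            p • (x - s • v i) + q • (y - t • v i) := by module
        rw [e]
        have h1 : ‖p • (x - s • v i)‖ ≤ p * ((1 - s) * b) := by
          rw [norm_smul, Real.norm_of_nonneg hp]
          exact mul_le_mul_of_nonneg_left hx hp
        have h2 : ‖q • (y - t • v i)‖ ≤ q * ((1 - t) * b) := by
          rw [norm_smul, Real.norm_of_nonneg hq]
          exact mul_le_mul_of_nonneg_left hy hq
        calc ‖p • (x - s • v i) + q • (y - t • v i)‖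
            ≤ ‖p • (x - s • v i)‖ + ‖q • (y - t • v i)‖ := norm_add_le _ _
          _ ≤ p * ((1 - s) * b) + q * ((1 - t) * b) := by linarith
          _ = (p + q - (p * s + q * t)) * b := by ring
          _ = (1 - (p * s + q * t)) * b := by rw [hpq]
    · rcases le_total (q * t) (p * s) with h | h
      · exact hull_two hv hp hq hpq hs hs1 ht ht1 hx hy hij h
      · rw [add_comm (p • x)]
        exact hull_two hv hq hp (by linarith) ht ht1 hs hs1 hy hx (Ne.symm hij) h

theorem hull : S_hull := by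
  intro d N v hv x hx
  have hb0 : 0 ≤ b := Real.sqrt_nonneg _
  have h1 : hedge v ⊆ {x | hull_mem v x} := by
    refine convexHull_min ?_ (hull_convex hv)
    rintro y (hy | ⟨i, rfl⟩)
    · left
      simpa using hy
    · right
      exact ⟨i, 1, zero_le_one, le_rfl, by simp⟩
  rcases h1 hx with h | ⟨i, s, hs, hs1, h⟩
  · left
    simpa using h
  · right
    refine ⟨i, ?_⟩
    rcases eq_or_lt_of_le hs1 with rfl | hs2
    · have : x = v i := by
        rw [sub_self, zero_mul, one_smul] at h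
        exact sub_eq_zero.1 (norm_le_zero_iff.1 h)
      rw [this]
      exact subset_convexHull ℝ _ (mem_insert _ _)
    · have h1s : 0 < 1 - s := by linarith
      have hp : (1 - s)⁻¹ • (x - s • v i) ∈ closedBall (0 : E d) b := by
        rw [mem_closedBall_zero_iff, norm_smul, norm_inv, Real.norm_of_nonneg h1s.le,
          inv_mul_le_iff₀ h1s]
        exact h
      have h3 := (convex_convexHull ℝ (insert (v i) (closedBall (0 : E d) b)))
        (subset_convexHull ℝ _ (mem_insert _ _))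
        (subset_convexHull ℝ _ (mem_insert_of_mem _ hp)) hs h1s.le (by ring)
      rw [smul_smul, mul_inv_cancel₀ h1s.ne', one_smul] at h3
      rwa [add_sub_cancel] at h3

end Pool.Agent.Y373.NC
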