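import Pool.Agent.Y373.NC.Spike

/-!
# Body facts and the lower bound for the Newton covering number
-/

set_option autoImplicit false

namespace Pool.Agent.Y373.NC

open Set Metric Pool.Agent.Helper2.NewtonCover

/-- the convex hull of the union of two compact convex sets is compact -/
theorem low_compact {d : ℕ} {s t : Set (E d)} (hs : IsCompact s) (hsc : Convex ℝ s)
    (ht : IsCompact t) (htc : Convex ℝ t) : IsCompact (convexHull ℝ (s ∪ t)) := by
  rcases s.eq_empty_or_nonempty with h | h
  · subst h; rw [empty_union, htc.convexHull_eq]; exact ht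
  rcases t.eq_empty_or_nonempty with h' | h'
  · subst h'; rw [union_empty, hsc.convexHull_eq]; exact hs
  have hfc : Continuous (fun p : E d × E d × ℝ => (1 - p.2.2) • p.1 + p.2.2 • p.2.1) := by
    fun_prop
  have h1 : IsCompact ((fun p : E d × E d × ℝ => (1 - p.2.2) • p.1 + p.2.2 • p.2.1) ''
      (s ×ˢ t ×ˢ Icc (0 : ℝ) 1)) := (hs.prod (ht.prod isCompact_Icc)).image hfc
  convert h1 using 1
  rw [hsc.convexHull_union htc h h']
  ext z
  simp only [mem_convexJoin, segment_eq_image, mem_image, mem_prod, Prod.exists]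
  constructor
  · rintro ⟨a, ha, c, hc, r, hr, rfl⟩
    exact ⟨a, c, r, ⟨ha, hc, hr⟩, rfl⟩
  · rintro ⟨a, c, r, ⟨ha, hc, hr⟩, rfl⟩
    exact ⟨a, ha, c, hc, r, hr, rfl⟩

theorem body : S_body := by
  intro d N v hv
  have hint : (0 : E d) ∈ interior (hedge v) := by
    have h1 : ball (0 : E d) b ⊆ hedge v :=
      ball_subset_closedBall.trans (subset_union_left.trans (subset_convexHull ℝ _))
    exact interior_maximal h1 isOpen_ball (mem_ball_self b_pos)
  refine ⟨⟨convex_convexHull ℝ _, ?_, ⟨0, hint⟩⟩, ?_, hint⟩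
  · unfold hedge
    rw [← convexHull_convexHull_union_right]
    exact low_compact (isCompact_closedBall (0 : E d) b) (convex_closedBall _ _)
      ((finite_range v).isCompact_convexHull ℝ) (convex_convexHull ℝ _)
  · apply convexHull_min _ (convex_closedBall _ _)
    rintro x (hx | ⟨i, rfl⟩)
    · exact closedBall_subset_closedBall b_lt_one.le hx
    · simp [hv.1 i]

/-- the `k`-th point stretched by `1 + e` is still in the neighbourhood -/
theorem low_stretch {d N : ℕ} (v : Fin N → E d) {U : Set (E d)} (hU : IsOpen U)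
    (hv : ∀ k, v k ∈ U) : ∃ e : ℝ, 0 < e ∧ ∀ k, (1 + e) • v k ∈ U := by
  have h1 : ∀ k, ∀ᶠ e : ℝ in nhdsWithin 0 (Ioi 0), (1 + e) • v k ∈ U := by
    intro k
    have hc : Continuous (fun e : ℝ => (1 + e) • v k) := by fun_prop
    have h2 : (fun e : ℝ => (1 + e) • v k) ⁻¹' U ∈ nhds (0 : ℝ) := by
      apply (hU.preimage hc).mem_nhds
      simpa using hv k
    exact nhdsWithin_le_nhds h2
  have h3 : ∀ᶠ e : ℝ in nhdsWithin 0 (Ioi 0), ∀ k, (1 + e) • v k ∈ U :=
    Filter.eventually_all.mpr h1
  obtain ⟨e, h4, h5⟩ := (h3.and self_mem_nhdsWithin).exists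
  exact ⟨e, h5, h4⟩

theorem low (h : S_copy) : S_low := by
  intro d N m n v hv hm hcov
  obtain ⟨g, U, hU, hKU, hUg⟩ := hcov
  obtain ⟨hbody, -, hint⟩ := body d N v hv
  have hvK : ∀ k, v k ∈ hedge v := fun k => subset_convexHull ℝ _ (Or.inr ⟨k, rfl⟩)
  obtain ⟨e, he, hst⟩ := low_stretch v hU (fun k => hKU (hvK k))
  set L : ℝ := 1 / (1 + e) with hL
  have hL0 : 0 < L := by positivity
  have hL1 : L < 1 := by rw [hL, div_lt_one (by positivity)]; linarith
  have hLe : L * (1 + e) = 1 := by rw [hL]; field_simp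
  -- the scaled isometries
  let g' : Fin n → (E d ≃ᵢ E d) := fun i =>
    (g i).toRealLinearIsometryEquiv.toIsometryEquiv.trans (IsometryEquiv.addRight (L • g i 0))
  have hg' : ∀ i x, g' i x = (g i x - g i 0) + L • g i 0 := by
    intro i x
    simp [g', IsometryEquiv.toRealLinearIsometryEquiv_apply]
  have key : ∀ k : Fin N, ∃ i : Fin n, v k ∈ interior (g' i '' hedge v) := by
    intro k
    obtain ⟨i, y, hy, hyv⟩ := mem_iUnion.1 (hUg (hst k))
    refine ⟨i, ?_⟩
    have h1 : L • y ∈ interior (hedge v) := by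
      have := hbody.1.combo_interior_self_mem_interior hint hy (a := 1 - L) (b := L)
        (by linarith) hL0.le (by ring)
      simpa using this
    have h2 : interior (g' i '' hedge v) = g' i '' interior (hedge v) :=
      ((g' i).toHomeomorph.image_interior (hedge v)).symm
    rw [h2]
    refine ⟨L • y, h1, ?_⟩
    have h3 : (g i).toRealLinearIsometryEquiv (L • y) = L • (g i).toRealLinearIsometryEquiv y :=
      map_smul _ _ _
    rw [IsometryEquiv.toRealLinearIsometryEquiv_apply,
      IsometryEquiv.toRealLinearIsometryEquiv_apply] at h3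
    rw [hg', h3, hyv, smul_sub, smul_smul, hLe, one_smul]
    abel
  have hcard : (univ : Set (Fin N)) ⊆ ⋃ i : Fin n, {k : Fin N | v k ∈ interior (g' i '' hedge v)} := by
    intro k _
    obtain ⟨i, hi⟩ := key k
    exact mem_iUnion.2 ⟨i, hi⟩
  have h4 : (univ : Set (Fin N)).ncard ≤
      ∑ i : Fin n, ({k : Fin N | v k ∈ interior (g' i '' hedge v)}).ncard := by
    refine (Set.ncard_le_ncard hcard (toFinite _)).trans ?_
    have := Finset.set_ncard_biUnion_le Finset.univ
      (fun i : Fin n => {k : Fin N | v k ∈ interior (g' i '' hedge v)})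
    simpa using this
  rw [Set.ncard_univ, Nat.card_eq_fintype_card, Fintype.card_fin] at h4
  refine h4.trans ?_
  calc ∑ i : Fin n, ({k : Fin N | v k ∈ interior (g' i '' hedge v)}).ncard
      ≤ ∑ _i : Fin n, (498 + m) := Finset.sum_le_sum fun i _ => h d N m v hv hm (g' i)
    _ = n * (498 + m) := by simp

end Pool.Agent.Y373.NC
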