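import Pool.Agent.Y373.NC.Stm

/-!
Project NC, job NC-MATCH: from finitely many maps to all isometries.
-/

set_option autoImplicit false

namespace Pool.Agent.Y373.NC

open Set Metric Pool.Agent.Helper2.NewtonCover

theorem match_indep {α : Type*} [DecidableEq α] (M : Finset α) (lam : α → α)
    (hinj : Set.InjOn lam (M : Set α)) (hne : ∀ k ∈ M, lam k ≠ k) :
    ∃ K : Finset α, K ⊆ M ∧ (∀ i ∈ K, ∀ j ∈ K, lam i ≠ j) ∧ M.card ≤ 3 * K.card := by
  classical
  set F : Finset (Finset α) := M.powerset.filter (fun K => ∀ i ∈ K, ∀ j ∈ K, lam i ≠ j) with hF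
  have hFne : F.Nonempty := ⟨∅, by simp [hF]⟩
  obtain ⟨K, hK, hmax⟩ := Finset.exists_max_image F Finset.card hFne
  have hK' := Finset.mem_filter.1 hK
  have hKM : K ⊆ M := Finset.mem_powerset.1 hK'.1
  refine ⟨K, hKM, hK'.2, ?_⟩
  have hsub : M \ K ⊆ K.image lam ∪ M.filter (fun k => lam k ∈ K) := by
    intro k hk
    obtain ⟨hkM, hkK⟩ := Finset.mem_sdiff.1 hk
    by_contra hcon
    rw [Finset.mem_union, not_or] at hcon
    obtain ⟨c1, c2⟩ := hcon
    have hin : insert k K ∈ F := by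
      refine Finset.mem_filter.2 ⟨Finset.mem_powerset.2
        (Finset.insert_subset hkM hKM), ?_⟩
      intro i hi j hj hij
      rcases Finset.mem_insert.1 hi with rfl | hi'
      · rcases Finset.mem_insert.1 hj with rfl | hj'
        · exact hne _ hkM hij
        · exact c2 (Finset.mem_filter.2 ⟨hkM, by rw [hij]; exact hj'⟩)
      · rcases Finset.mem_insert.1 hj with rfl | hj'
        · exact c1 (Finset.mem_image.2 ⟨i, hi', hij⟩)
        · exact hK'.2 i hi' j hj' hij
    have := hmax _ hin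
    rw [Finset.card_insert_of_notMem hkK] at this
    omega
  have h1 : (M \ K).card ≤ K.card + K.card := by
    refine (Finset.card_le_card hsub).trans ((Finset.card_union_le _ _).trans ?_)
    refine Nat.add_le_add Finset.card_image_le ?_
    refine Finset.card_le_card_of_injOn lam (fun k hk => ?_) (fun x hx y hy hxy => ?_)
    · exact (Finset.mem_filter.1 (Finset.mem_coe.1 hk)).2
    · exact hinj (Finset.mem_filter.1 (Finset.mem_coe.1 hx)).1
        (Finset.mem_filter.1 (Finset.mem_coe.1 hy)).1 hxy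
  have h2 := Finset.card_sdiff_add_card_eq_card hKM
  omega

theorem few_matches (h : S_net) : S_match := by
  classical
  intro d N m v hd hv hnb g
  obtain ⟨hv1, hv2⟩ := hv
  by_contra hcon
  push Not at hcon
  set M : Set (Fin N) := {k : Fin N | ∃ l, l ≠ k ∧ ‖v k - g (v l)‖ ≤ 19 / 100} with hM
  have hMne : M.Nonempty := by
    rw [Set.nonempty_iff_ne_empty]
    intro h0
    rw [h0, Set.ncard_empty] at hcon
    omega
  have hex : ∀ k : Fin N, ∃ l : Fin N, k ∈ M → (l ≠ k ∧ ‖v k - g (v l)‖ ≤ 19 / 100) := by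
    intro k
    by_cases hk : k ∈ M
    · obtain ⟨l, hl⟩ := hk
      exact ⟨l, fun _ => hl⟩
    · exact ⟨k, fun h' => absurd h' hk⟩
  choose lam hlam using hex
  -- the value at the origin
  have hg0 : ‖g 0‖ ≤ 3 := by
    obtain ⟨k, hk⟩ := hMne
    obtain ⟨_, h2⟩ := hlam k hk
    have h3 : ‖g 0 - g (v (lam k))‖ = 1 := by
      rw [← dist_eq_norm, g.isometry.dist_eq, dist_zero_left, hv1]
    have h4 : ‖g 0‖ ≤ ‖g 0 - g (v (lam k))‖ + ‖g (v (lam k)) - v k‖ + ‖v k‖ := by
      calc ‖g 0‖ = ‖(g 0 - g (v (lam k))) + (g (v (lam k)) - v k) + v k‖ := by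
            congr 1; abel
        _ ≤ ‖(g 0 - g (v (lam k))) + (g (v (lam k)) - v k)‖ + ‖v k‖ := norm_add_le _ _
        _ ≤ _ := by
          have := norm_add_le (g 0 - g (v (lam k))) (g (v (lam k)) - v k)
          linarith
    rw [h3, hv1, norm_sub_rev (g (v (lam k))) (v k)] at h4
    linarith
  obtain ⟨A, c, hA, hc, hG⟩ := h d hd g hg0
  -- injectivity
  have hinj : Set.InjOn lam M := by
    intro k hk k' hk' hkk
    by_contra hne
    obtain ⟨_, h2⟩ := hlam k hk
    obtain ⟨_, h3⟩ := hlam k' hk'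
    rw [← hkk] at h3
    have h4 : ‖v k - v k'‖ ≤ 38 / 100 := by
      calc ‖v k - v k'‖ = ‖(v k - g (v (lam k))) - (v k' - g (v (lam k)))‖ := by
            congr 1; abel
        _ ≤ ‖v k - g (v (lam k))‖ + ‖v k' - g (v (lam k))‖ := norm_sub_le _ _
        _ ≤ _ := by linarith
    have h5 : ‖v k - v k'‖ ^ 2 = ‖v k‖ ^ 2 - 2 * inner ℝ (v k) (v k') + ‖v k'‖ ^ 2 :=
      norm_sub_sq_real _ _
    rw [hv1, hv1] at h5
    have h6 := hv2 k k' hne
    have h7 : ‖v k - v k'‖ ^ 2 ≤ (38 / 100) ^ 2 := pow_le_pow_left₀ (norm_nonneg _) h4 2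
    rw [h5] at h7
    norm_num at h7
    linarith
  have hcard : M.ncard = M.toFinset.card := Set.ncard_eq_toFinset_card' M
  obtain ⟨K, hKM, hK1, hK2⟩ := match_indep M.toFinset lam (by rwa [Set.coe_toFinset])
    (fun k hk => (hlam k (Set.mem_toFinset.1 hk)).1)
  have hmK : m ≤ K.card := by omega
  obtain ⟨S, hSK, hS⟩ := Finset.exists_subset_card_eq hmK
  set e := (S.equivFinOfCardEq hS).symm with he
  obtain ⟨i, hi⟩ := hnb A c hA hc (fun i => (e i : Fin N)) (fun i => lam (e i))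
    (fun x y hxy => e.injective (Subtype.ext hxy))
    (fun i j => hK1 _ (hSK (e i).2) _ (hSK (e j).2))
  have hmem : ((e i : Fin N)) ∈ M := Set.mem_toFinset.1 (hKM (hSK (e i).2))
  obtain ⟨_, h2⟩ := hlam _ hmem
  have h3 := hG (v (lam (e i))) (by rw [hv1])
  have h4 : ‖v (e i) - G d A c (v (lam (e i)))‖ ≤
      ‖v (e i) - g (v (lam (e i)))‖ + ‖g (v (lam (e i))) - G d A c (v (lam (e i)))‖ := by
    calc ‖v (e i) - G d A c (v (lam (e i)))‖ = ‖(v (e i) - g (v (lam (e i)))) +
          (g (v (lam (e i))) - G d A c (v (lam (e i))))‖ := by congr 1; abel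
      _ ≤ _ := norm_add_le _ _
  have h5 : (24 / 125 : ℝ) < 24 / 125 := by
    calc (24 / 125 : ℝ) < ‖v (e i) - G d A c (v (lam (e i)))‖ := hi
      _ ≤ 19 / 100 + 1 / 500 := h4.trans (add_le_add h2 h3)
      _ = 24 / 125 := by norm_num
  exact lt_irrefl _ h5

end Pool.Agent.Y373.NC
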