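import Pool.Agent.Y373.NC.Stm

/-!
# Block `S_net` of project NC
-/

set_option autoImplicit false

namespace Pool.Agent.Y373.NC

open Set Metric Pool.Agent.Helper2.NewtonCover

private theorem net_coord {d : ℕ} (U : E d ≃ₗᵢ[ℝ] E d) (x : E d) (i : Fin d) :
    (U x) i = ∑ j, (U (EuclideanSpace.single j 1)) i * x j := by
  have h : x = ∑ j, x j • (EuclideanSpace.single j (1 : ℝ) : E d) := by
    ext k
    simp [Pi.single_apply]
  conv_lhs => rw [h]
  rw [map_sum]
  simp [mul_comm]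

private theorem net_floor {Q t : ℝ} (hQ : 0 < Q) : |t - (⌊Q * t⌋ : ℝ) / Q| ≤ 1 / Q := by
  have h1 := Int.floor_le (Q * t)
  have h2 := Int.lt_floor_add_one (Q * t)
  have e : t - (⌊Q * t⌋ : ℝ) / Q = (Q * t - ⌊Q * t⌋) / Q := by
    field_simp
  rw [e, abs_div, abs_of_pos hQ]
  gcongr
  rw [abs_le]
  constructor <;> linarith

theorem net : S_net := by
  intro d hd g hg
  set U := g.toRealLinearIsometryEquiv with hU
  have hUx : ∀ x, g x = U x + g 0 := by
    intro x
    rw [hU, IsometryEquiv.toRealLinearIsometryEquiv_apply]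
    simp
  have hd0 : (1 : ℝ) ≤ d := by exact_mod_cast hd
  set Q : ℝ := 1000 * d with hQ
  have hQ0 : 0 < Q := by positivity
  set u : Fin d → Fin d → ℝ := fun i j => (U (EuclideanSpace.single j 1)) i with hu
  have hu1 : ∀ i j, |u i j| ≤ 1 := by
    intro i j
    have h1 := PiLp.norm_apply_le (U (EuclideanSpace.single j 1)) i
    rw [LinearIsometryEquiv.norm_map, EuclideanSpace.norm_single, norm_one] at h1
    exact h1
  have hc1 : ∀ i, |(g 0) i| ≤ 3 := fun i => (PiLp.norm_apply_le (g 0) i).trans hg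
  refine ⟨fun i j => ⌊Q * u i j⌋, fun i => ⌊Q * (g 0) i⌋, ?_, ?_, ?_⟩
  · intro i j
    have h := abs_le.1 (hu1 i j)
    rw [abs_le]
    constructor
    · rw [Int.le_floor]
      push_cast
      nlinarith
    · have : (⌊Q * u i j⌋ : ℝ) ≤ 1000 * d := (Int.floor_le _).trans (by nlinarith)
      exact_mod_cast this
  · intro i
    have h := abs_le.1 (hc1 i)
    rw [abs_le]
    constructor
    · rw [Int.le_floor]
      push_cast
      nlinarith
    · have : (⌊Q * (g 0) i⌋ : ℝ) ≤ 3000 * d := (Int.floor_le _).trans (by nlinarith)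
      exact_mod_cast this
  · intro x hx
    set S : ℝ := ∑ j, |x j| with hS
    have hS0 : 0 ≤ S := Finset.sum_nonneg fun j _ => abs_nonneg _
    have hS1 : S ^ 2 ≤ d := by
      have h1 := sq_sum_le_card_mul_sum_sq (s := (Finset.univ : Finset (Fin d)))
        (f := fun j => |x j|)
      have h2 : ∑ j, |x j| ^ 2 = ‖x‖ ^ 2 := by
        rw [EuclideanSpace.real_norm_sq_eq]
        simp
      rw [h2, Finset.card_univ, Fintype.card_fin] at h1
      have h3 : ‖x‖ ^ 2 ≤ 1 := pow_le_one₀ (norm_nonneg _) hx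
      calc S ^ 2 ≤ d * ‖x‖ ^ 2 := h1
        _ ≤ d * 1 := by gcongr
        _ = d := mul_one _
    have key : ∀ i, |(g x - G d (fun i j => ⌊Q * u i j⌋) (fun i => ⌊Q * (g 0) i⌋) x) i| ≤
        (S + 1) / Q := by
      intro i
      have e : (g x - G d (fun i j => ⌊Q * u i j⌋) (fun i => ⌊Q * (g 0) i⌋) x) i =
          (∑ j, (u i j - (⌊Q * u i j⌋ : ℝ) / Q) * x j) + ((g 0) i - (⌊Q * (g 0) i⌋ : ℝ) / Q) := by
        rw [hUx x]
        have e1 : (U x + g 0 - G d (fun i j => ⌊Q * u i j⌋) (fun i => ⌊Q * (g 0) i⌋) x) i =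
            (U x) i + (g 0) i -
              ((∑ j, (⌊Q * u i j⌋ : ℝ) * x j) + (⌊Q * (g 0) i⌋ : ℝ)) / (1000 * d) := by
          simp [G]
        rw [e1, net_coord U x i]
        simp only [sub_mul, Finset.sum_sub_distrib]
        rw [add_div, Finset.sum_div]
        have e2 : ∀ j, (⌊Q * u i j⌋ : ℝ) / Q * x j = (⌊Q * u i j⌋ : ℝ) * x j / (1000 * d) := by
          intro j
          rw [hQ]; ring
        simp only [e2]
        ring
      rw [e]
      have h1 : |∑ j, (u i j - (⌊Q * u i j⌋ : ℝ) / Q) * x j| ≤ S / Q := by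
        calc |∑ j, (u i j - (⌊Q * u i j⌋ : ℝ) / Q) * x j|
            ≤ ∑ j, |(u i j - (⌊Q * u i j⌋ : ℝ) / Q) * x j| := Finset.abs_sum_le_sum_abs _ _
          _ ≤ ∑ j, 1 / Q * |x j| := by
              refine Finset.sum_le_sum fun j _ => ?_
              rw [abs_mul]
              exact mul_le_mul_of_nonneg_right (net_floor hQ0) (abs_nonneg _)
          _ = S / Q := by
              rw [← Finset.mul_sum, hS]; ring
      have h2 : |(g 0) i - (⌊Q * (g 0) i⌋ : ℝ) / Q| ≤ 1 / Q := net_floor hQ0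
      calc _ ≤ _ := abs_add_le _ _
        _ ≤ S / Q + 1 / Q := add_le_add h1 h2
        _ = (S + 1) / Q := by ring
    have h5 : (S + 1) ^ 2 ≤ 4 * d := by nlinarith [sq_nonneg (S - 1)]
    have h6 : ‖g x - G d (fun i j => ⌊Q * u i j⌋) (fun i => ⌊Q * (g 0) i⌋) x‖ ^ 2 ≤
        (1 / 500) ^ 2 := by
      rw [EuclideanSpace.real_norm_sq_eq]
      calc ∑ i, ((g x - G d (fun i j => ⌊Q * u i j⌋) (fun i => ⌊Q * (g 0) i⌋) x) i) ^ 2
          ≤ ∑ i : Fin d, 4 * d / Q ^ 2 := by
            refine Finset.sum_le_sum fun i _ => ?_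
            rw [← sq_abs]
            calc _ ≤ ((S + 1) / Q) ^ 2 := pow_le_pow_left₀ (abs_nonneg _) (key i) 2
              _ = (S + 1) ^ 2 / Q ^ 2 := div_pow _ _ _
              _ ≤ 4 * d / Q ^ 2 := by gcongr
        _ = (1 / 500) ^ 2 := by
            rw [Finset.sum_const, Finset.card_univ, Fintype.card_fin, nsmul_eq_mul, hQ]
            field_simp
            norm_num
    exact (pow_le_pow_iff_left₀ (norm_nonneg _) (by norm_num) two_ne_zero).1 h6

end Pool.Agent.Y373.NC
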