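import Pool.Agent.Y373.NC.Stm

/-!
# Two numerical estimates
-/

set_option autoImplicit false

namespace Pool.Agent.Y373.NC

open Filter Topology

private theorem num_half : Real.exp (-1) < 1 / 2 := by
  rw [Real.exp_neg, inv_lt_comm₀ (Real.exp_pos 1) (by norm_num)]
  have := Real.add_one_lt_exp (one_ne_zero)
  norm_num at this ⊢
  linarith

theorem num : S_num := by
  refine ⟨2000000, fun d hd x hx0 hx => ?_⟩
  have hd' : (2000000 : ℝ) ≤ d := by exact_mod_cast hd
  have hd0 : (0 : ℝ) < d := by linarith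
  have h1 : x ^ 2 * Real.exp (-(361 / 20000 * d)) < 1 / 2 := by
    calc x ^ 2 * Real.exp (-(361 / 20000 * d))
        ≤ Real.exp (9 / 1000 * d) ^ 2 * Real.exp (-(361 / 20000 * d)) := by gcongr
      _ = Real.exp (-(d / 20000)) := by
          rw [← Real.exp_nat_mul, ← Real.exp_add]; congr 1; push_cast; ring
      _ ≤ Real.exp (-1) := by
          apply Real.exp_le_exp.2
          linarith
      _ < 1 / 2 := num_half
  have h6001 : (6001 * d : ℝ) ≤ Real.exp (1 / 10 * d) := by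
    have := Real.quadratic_le_exp_of_nonneg (x := 1 / 10 * (d : ℝ)) (by positivity)
    nlinarith
  have h2 : (6001 * d : ℝ) ^ (d ^ 2 + d) * x ^ (2 * d ^ 2) *
      Real.exp (-(12 / 25 * d * (d ^ 2 : ℕ))) < 1 / 2 := by
    calc (6001 * d : ℝ) ^ (d ^ 2 + d) * x ^ (2 * d ^ 2) * Real.exp (-(12 / 25 * d * (d ^ 2 : ℕ)))
        ≤ Real.exp (1 / 10 * d) ^ (d ^ 2 + d) * Real.exp (9 / 1000 * d) ^ (2 * d ^ 2) *
          Real.exp (-(12 / 25 * d * (d ^ 2 : ℕ))) := by gcongr
      _ = Real.exp (-(131 / 500 * d ^ 3) - (1 / 10 * d ^ 3 - 1 / 10 * d ^ 2)) := by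
          rw [← Real.exp_nat_mul, ← Real.exp_nat_mul, ← Real.exp_add, ← Real.exp_add]
          congr 1; push_cast; ring
      _ ≤ Real.exp (-1) := by
          apply Real.exp_le_exp.2
          have h3 : (1 : ℝ) ≤ d ^ 2 := by nlinarith
          have h4 : (d : ℝ) ^ 3 = d * d ^ 2 := by ring
          rw [h4]
          nlinarith
      _ < 1 / 2 := num_half
  linarith

theorem num2 : S_num2 := by
  have he : (1009 / 1000 : ℝ) < Real.exp (9 / 1000) := by
    have := Real.add_one_lt_exp (x := (9 / 1000 : ℝ)) (by norm_num)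
    linarith
  set e := Real.exp (9 / 1000 : ℝ) with hedef
  have hepos : 0 < e := Real.exp_pos _
  have hq : |(1009 / 1000 : ℝ) / e| < 1 := by
    rw [abs_of_pos (by positivity), div_lt_one hepos]
    exact he
  have hT := tendsto_pow_const_mul_const_pow_of_abs_lt_one 2 hq
  have hev : ∀ᶠ n : ℕ in atTop, (n : ℝ) ^ 2 * ((1009 / 1000 : ℝ) / e) ^ n < 1 / 502 :=
    hT.eventually (gt_mem_nhds (by norm_num))
  obtain ⟨N, hN⟩ := eventually_atTop.1 hev
  refine ⟨max N 1, fun d hd => ?_⟩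
  have h1 := hN d (le_trans (le_max_left _ _) hd)
  have hd1 : (1 : ℝ) ≤ d := by exact_mod_cast le_trans (le_max_right _ _) hd
  have hexp : Real.exp (9 / 1000 * d) = e ^ d := by
    rw [hedef, ← Real.exp_nat_mul, mul_comm]
  have h2 : (1009 / 1000 : ℝ) ^ d * (498 + 3 * d ^ 2) + 1 ≤ e ^ d := by
    have h3 : (1 : ℝ) ≤ (1009 / 1000 : ℝ) ^ d := one_le_pow₀ (by norm_num)
    have h4 : (502 : ℝ) * (d ^ 2 * (1009 / 1000 : ℝ) ^ d) ≤ e ^ d := by
      rw [div_pow, mul_div_assoc', div_lt_iff₀ (by positivity)] at h1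
      linarith
    have h5 : (1 : ℝ) ≤ (d : ℝ) ^ 2 := by nlinarith
    calc (1009 / 1000 : ℝ) ^ d * (498 + 3 * d ^ 2) + 1
        ≤ (1009 / 1000 : ℝ) ^ d * (498 + 3 * d ^ 2) + (1009 / 1000 : ℝ) ^ d * 1 := by linarith
      _ = (1009 / 1000 : ℝ) ^ d * (499 + 3 * d ^ 2) := by ring
      _ ≤ (1009 / 1000 : ℝ) ^ d * (502 * d ^ 2) := by
          apply mul_le_mul_of_nonneg_left _ (by positivity)
          linarith
      _ = 502 * (d ^ 2 * (1009 / 1000 : ℝ) ^ d) := by ring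
      _ ≤ e ^ d := h4
  rw [hexp]
  have h6 := Nat.lt_floor_add_one (e ^ d)
  linarith

end Pool.Agent.Y373.NC
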