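import Pool.Agent.Y373.NC.Stm

/-!
# Block `S_pair` of project NC
-/

set_option autoImplicit false

namespace Pool.Agent.Y373.NC

open Set Metric Pool.Agent.Helper2.NewtonCover

theorem pair (h : S_cap) : S_pair := by
  classical
  intro d N v hv U c T hT
  set w : Fin N → E d := fun i => U (v i) with hw
  set D : Fin N → E d := fun i => v i - (U (v i) + c) with hD
  have hwsep : Sep w := by
    refine ⟨fun i => ?_, fun i j hij => ?_⟩
    · rw [hw]
      simp only [LinearIsometryEquiv.norm_map]
      exact hv.1 i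
    · rw [hw]
      simp only [LinearIsometryEquiv.inner_map_map]
      exact hv.2 i j hij
  let A : Fin N → Fin N → Prop := fun i j => 7 / 10 * kap * ‖D j‖ ≤ inner ℝ (w i) (-D j)
  have hkap : 0 ≤ kap := Real.sqrt_nonneg _
  -- comparison of two points
  have hA : ∀ i ∈ T, ∀ j ∈ T, A i j ∨ A j i := by
    intro i hi j hj
    obtain ⟨-, hi1, hi2⟩ := hT i hi
    obtain ⟨-, hj1, hj2⟩ := hT j hj
    change ‖D i‖ ≤ _ at hi1
    change kap * ‖D i‖ ≤ - inner ℝ (w i) (D i) at hi2
    change ‖D j‖ ≤ _ at hj1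
    change kap * ‖D j‖ ≤ - inner ℝ (w j) (D j) at hj2
    have e1 : v i - v j = (w i - w j) + (D i - D j) := by
      simp only [hw, hD]; abel
    have e2 : ‖w i - w j‖ = ‖v i - v j‖ := by
      simp only [hw]
      rw [← map_sub, LinearIsometryEquiv.norm_map]
    have e3 := norm_add_sq_real (w i - w j) (D i - D j)
    rw [← e1, e2] at e3
    have e4 : inner ℝ (w i - w j) (D i - D j) =
        inner ℝ (w i) (D i) - inner ℝ (w i) (D j) - (inner ℝ (w j) (D i) - inner ℝ (w j) (D j)) := by
      have i1 := inner_sub_right (𝕜 := ℝ) (w i) (D i) (D j)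
      have i2 := inner_sub_right (𝕜 := ℝ) (w j) (D i) (D j)
      rw [inner_sub_left, i1, i2]
    have e5 : ‖D i - D j‖ ≤ ‖D i‖ + ‖D j‖ := norm_sub_le _ _
    have e6 : ‖D i - D j‖ ^ 2 ≤ (‖D i‖ + ‖D j‖) ^ 2 := by
      exact pow_le_pow_left₀ (norm_nonneg _) e5 2
    have e7 : (‖D i‖ + ‖D j‖) ^ 2 ≤ 6 / 10 * kap * (‖D i‖ + ‖D j‖) := by
      have h0 : 0 ≤ ‖D i‖ + ‖D j‖ := by positivity
      nlinarith
    by_contra hcon
    rw [not_or] at hcon
    obtain ⟨h1, h2⟩ := hcon
    simp only [A, not_le, inner_neg_right] at h1 h2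
    nlinarith
  -- counting pairs
  let P : Finset (Fin N × Fin N) := (T ×ˢ T).filter (fun p => A p.1 p.2)
  have hP1 : (T ×ˢ T) ⊆ P ∪ P.image Prod.swap := by
    intro p hp
    have hp' := Finset.mem_product.1 hp
    rcases hA p.1 hp'.1 p.2 hp'.2 with h1 | h1
    · exact Finset.mem_union_left _ (Finset.mem_filter.2 ⟨hp, h1⟩)
    · refine Finset.mem_union_right _ (Finset.mem_image.2 ⟨p.swap, ?_, Prod.swap_swap p⟩)
      exact Finset.mem_filter.2 ⟨Finset.mem_product.2 ⟨hp'.2, hp'.1⟩, h1⟩
  have hP2 : T.card * T.card ≤ 2 * P.card := by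
    have h1 := Finset.card_le_card hP1
    rw [Finset.card_product] at h1
    have h2 := Finset.card_union_le P (P.image Prod.swap)
    have h3 := Finset.card_image_le (s := P) (f := Prod.swap)
    omega
  have hP3 : P.card ≤ T.card * 166 := by
    have h1 : P.card = ∑ j ∈ T, (T.filter (fun i => A i j)).card := by
      rw [Finset.card_eq_sum_card_fiberwise (f := Prod.snd) (t := T)]
      · refine Finset.sum_congr rfl fun j hj => ?_
        refine Finset.card_bij' (fun p _ => p.1) (fun i _ => (i, j)) ?_ ?_ ?_ ?_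
        · intro p hp
          simp only [P, Finset.mem_filter, Finset.mem_product] at hp ⊢
          obtain ⟨⟨⟨h1, h2⟩, h3⟩, h4⟩ := hp
          subst h4
          exact ⟨h1, h3⟩
        · intro i hi
          simp only [P, Finset.mem_filter, Finset.mem_product] at hi ⊢
          exact ⟨⟨⟨hi.1, hj⟩, hi.2⟩, trivial⟩
        · intro p hp
          simp only [P, Finset.mem_filter, Finset.mem_product] at hp
          exact Prod.ext rfl hp.2.symm
        · intro i hi
          rfl
      · intro p hp
        exact (Finset.mem_product.1 (Finset.mem_filter.1 hp).1).2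
    rw [h1]
    calc ∑ j ∈ T, (T.filter (fun i => A i j)).card ≤ ∑ j ∈ T, 166 := by
          refine Finset.sum_le_sum fun j hj => ?_
          refine h d N w hwsep (-D j) _ (neg_ne_zero.2 (hT j hj).1) ?_
          intro i hi
          rw [norm_neg]
          exact (Finset.mem_filter.1 hi).2
      _ = T.card * 166 := by simp
  rcases Nat.eq_zero_or_pos T.card with h0 | h0
  · omega
  · nlinarith

end Pool.Agent.Y373.NC
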