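import Pool.Agent.Y373.NC.Stm

/-!
# Block `S_sepc` of project NC
-/

set_option autoImplicit false

namespace Pool.Agent.Y373.NC

open Set Metric Pool.Agent.Helper2.NewtonCover

private theorem sepc_norm {d : ℕ} (hd : 1 ≤ d) (s : Fin d → Bool) : ‖pt d s‖ = 1 := by
  have hd0 : (0 : ℝ) < d := by exact_mod_cast hd
  have h : ‖pt d s‖ ^ 2 = 1 := by
    rw [EuclideanSpace.real_norm_sq_eq]
    have h1 : ∀ i, (pt d s) i ^ 2 = 1 / d := by
      intro i
      simp only [pt, div_pow, Real.sq_sqrt hd0.le]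
      congr 1
      split_ifs <;> norm_num
    simp only [h1]
    rw [Finset.sum_const, Finset.card_univ, Fintype.card_fin, nsmul_eq_mul]
    field_simp
  have h2 := norm_nonneg (pt d s)
  nlinarith

theorem sepc (h1 : S_hoef) (h2 : S_cnt) : S_sepc := by
  classical
  intro d N hd
  set B : ℝ := 2 ^ d * Real.exp (-(361 / 20000 * d)) with hB
  have hpair : ∀ p : Fin N × Fin N, p.1 ≠ p.2 →
      (Set.ncard {s : Fin N → (Fin d → Bool) | 19 / 100 ≤ inner ℝ (pt d (s p.1)) (pt d (s p.2))} : ℝ)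
        ≤ (2 ^ d) ^ N * Real.exp (-(361 / 20000 * d)) := by
    intro p hp
    have h3 := h2 (Fin d → Bool) N 1 B
      (fun _ x y => 19 / 100 ≤ inner ℝ (pt d x) (pt d y)) (fun _ => p.1) (fun _ => p.2)
      (fun _ _ _ => Subsingleton.elim _ _) (fun _ _ => hp.symm) (by
        intro _ y
        have h4 := h1 d hd (pt d y) (sepc_norm hd y) (19 / 100) (by norm_num)
        have e : -((19 / 100 : ℝ) ^ 2 * d / 2) = -(361 / 20000 * d) := by ring
        rw [e] at h4
        exact h4)
    have hN : 1 ≤ N := by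
      have := p.1.2
      omega
    have e1 : {s : Fin N → (Fin d → Bool) | 19 / 100 ≤ inner ℝ (pt d (s p.1)) (pt d (s p.2))} =
        {s : Fin N → (Fin d → Bool) | ∀ _ : Fin 1,
          19 / 100 ≤ inner ℝ (pt d (s p.1)) (pt d (s p.2))} := by
      ext s
      simp
    rw [e1]
    refine h3.trans (le_of_eq ?_)
    have e2 : (Fintype.card (Fin d → Bool) : ℝ) = 2 ^ d := by simp
    rw [e2, pow_one, hB]
    obtain ⟨n, rfl⟩ : ∃ n, N = n + 1 := ⟨N - 1, by omega⟩
    rw [Nat.add_sub_cancel, pow_succ ((2 : ℝ) ^ d) n]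
    ring
  have hsub : {s : Fin N → (Fin d → Bool) | ¬ Sep (fun k => pt d (s k))} ⊆
      ⋃ p ∈ (Finset.univ.filter fun p : Fin N × Fin N => p.1 ≠ p.2),
        {s : Fin N → (Fin d → Bool) | 19 / 100 ≤ inner ℝ (pt d (s p.1)) (pt d (s p.2))} := by
    intro s hs
    simp only [mem_ofPred_eq, Sep, not_and_or, not_forall] at hs
    rcases hs with ⟨i, hi⟩ | ⟨i, j, hij, h⟩
    · exact absurd (sepc_norm hd (s i)) hi
    · refine mem_biUnion (x := (i, j)) ?_ (not_le.1 h).le
      simpa using hij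
  have h5 : (Set.ncard {s : Fin N → (Fin d → Bool) | ¬ Sep (fun k => pt d (s k))} : ℝ) ≤
      ∑ p ∈ (Finset.univ.filter fun p : Fin N × Fin N => p.1 ≠ p.2),
        (Set.ncard {s : Fin N → (Fin d → Bool) |
          19 / 100 ≤ inner ℝ (pt d (s p.1)) (pt d (s p.2))} : ℝ) := by
    have h6 := Set.ncard_le_ncard hsub (Set.toFinite _)
    have h7 := Finset.set_ncard_biUnion_le
      (Finset.univ.filter fun p : Fin N × Fin N => p.1 ≠ p.2)
      (fun p => {s : Fin N → (Fin d → Bool) | 19 / 100 ≤ inner ℝ (pt d (s p.1)) (pt d (s p.2))})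
    exact_mod_cast h6.trans h7
  refine h5.trans ?_
  have h8 : 0 ≤ (2 ^ d : ℝ) ^ N * Real.exp (-(361 / 20000 * d)) := by positivity
  calc _ ≤ ∑ p ∈ (Finset.univ.filter fun p : Fin N × Fin N => p.1 ≠ p.2),
        (2 ^ d : ℝ) ^ N * Real.exp (-(361 / 20000 * d)) := by
        refine Finset.sum_le_sum fun p hp => ?_
        exact hpair p (Finset.mem_filter.1 hp).2
    _ = ((Finset.univ.filter fun p : Fin N × Fin N => p.1 ≠ p.2).card : ℝ) *
        ((2 ^ d : ℝ) ^ N * Real.exp (-(361 / 20000 * d))) := by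
        rw [Finset.sum_const, nsmul_eq_mul]
    _ ≤ ((N : ℝ) ^ 2) * ((2 ^ d : ℝ) ^ N * Real.exp (-(361 / 20000 * d))) := by
        refine mul_le_mul_of_nonneg_right ?_ h8
        have h9 := Finset.card_filter_le (Finset.univ : Finset (Fin N × Fin N))
          (fun p => p.1 ≠ p.2)
        rw [Finset.card_univ, Fintype.card_prod, Fintype.card_fin] at h9
        have h10 : ((Finset.univ.filter fun p : Fin N × Fin N => p.1 ≠ p.2).card : ℝ) ≤
          ((N * N : ℕ) : ℝ) := by exact_mod_cast h9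
        refine h10.trans (le_of_eq ?_)
        push_cast
        ring
    _ = _ := by ring

end Pool.Agent.Y373.NC
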