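import Pool.Agent.Y373.NC.Stm

/-!
# Geometry of a cap at its apex
-/

set_option autoImplicit false

namespace Pool.Agent.Y373.NC

open Set Metric Pool.Agent.Helper2.NewtonCover

theorem kap_sq : kap ^ 2 = 2 / 5 := by
  unfold kap; rw [Real.sq_sqrt]; norm_num

theorem kap_pos : 0 < kap := by
  unfold kap; exact Real.sqrt_pos.mpr (by norm_num)

theorem b_sq : b ^ 2 = 3 / 5 := by
  unfold b; rw [Real.sq_sqrt]; norm_num

theorem b_pos : 0 < b := by
  unfold b; exact Real.sqrt_pos.mpr (by norm_num)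

theorem b_lt_one : b < 1 := by
  have := b_sq; have := b_pos; nlinarith

theorem mem_cap {d : ℕ} {w x : E d} (hx : x ∈ convexHull ℝ (insert w (closedBall (0 : E d) b))) :
    ∃ (p : E d) (t : ℝ), ‖p‖ ≤ b ∧ 0 ≤ t ∧ t ≤ 1 ∧ x - w = t • (p - w) := by
  rw [convexHull_insert ⟨0, by simp [b_pos.le]⟩] at hx
  rw [mem_convexJoin] at hx
  obtain ⟨w', hw', p, hp, hs⟩ := hx
  rw [mem_singleton_iff] at hw'; subst hw'
  rw [(convex_closedBall (0 : E d) b).convexHull_eq] at hp
  rw [segment_eq_image'] at hs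
  obtain ⟨t, ⟨ht0, ht1⟩, rfl⟩ := hs
  refine ⟨p, t, by simpa using hp, ht0, ht1, by simp⟩

theorem spike : S_spike := by
  intro d w x hw hx
  obtain ⟨p, t, hp, ht0, ht1, hxw⟩ := mem_cap hx
  have hb := b_sq
  have hb0 := b_pos
  have hb1 := b_lt_one
  have hk := kap_sq
  have hk0 := kap_pos
  have hpp : ‖p‖ ^ 2 ≤ 3 / 5 := by
    have := norm_nonneg p; nlinarith
  set A : ℝ := - inner ℝ w (p - w) with hA
  set q : ℝ := ‖p - w‖ with hq
  have hq0 : 0 ≤ q := norm_nonneg _
  -- `‖p‖² = 1 - 2A + q²`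
  have e1 : ‖p‖ ^ 2 = 1 - 2 * A + q ^ 2 := by
    have h := norm_add_sq_real w (p - w)
    rw [add_sub_cancel, hw] at h
    rw [h, hA, hq]; ring
  have hA' : A = 1 - inner ℝ w p := by
    rw [hA, inner_sub_right, real_inner_self_eq_norm_sq, hw]; ring
  have hwp : inner ℝ w p ≤ b := by
    have := real_inner_le_norm w p
    rw [hw, one_mul] at this; linarith
  have hApos : 0 < A := by rw [hA']; linarith
  have hkq : kap * q ≤ A := by
    have h1 : (kap * q) ^ 2 ≤ A ^ 2 := by
      rw [mul_pow, hk]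
      nlinarith [sq_nonneg (A - 2 / 5)]
    exact le_of_sq_le_sq h1 hApos.le
  constructor
  · rw [hxw, norm_smul, inner_smul_right, Real.norm_eq_abs, abs_of_nonneg ht0]
    have := mul_le_mul_of_nonneg_left hkq ht0
    rw [hA] at this
    linarith
  · intro h3
    rw [hxw, norm_smul, Real.norm_eq_abs, abs_of_nonneg ht0, ← hq] at h3
    have e2 : ‖x‖ ^ 2 = 1 - 2 * t * A + t ^ 2 * q ^ 2 := by
      have h := norm_add_sq_real w (x - w)
      rw [add_sub_cancel, hw] at h
      rw [h, hxw, inner_smul_right, norm_smul, Real.norm_eq_abs, abs_of_nonneg ht0, ← hq, hA]; ring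
    have hqk : 3 / 10 * kap < q := by
      -- `q ≥ 1 - b > 0.3 * kap`
      have h1 : 1 - b ≤ q := by
        have := norm_sub_norm_le w p
        rw [hw, norm_sub_rev, ← hq] at this; linarith
      have h2 : kap < 16 / 25 := by nlinarith
      have h3 : b < 4 / 5 := by nlinarith
      nlinarith
    have hqpos : 0 < q := by linarith [mul_pos (by norm_num : (0:ℝ) < 3/10) hk0]
    obtain ⟨t0, ht0e⟩ : ∃ t0 : ℝ, t0 * q = 3 / 10 * kap := ⟨3 / 10 * kap / q, by field_simp⟩
    have ht01 : t0 < 1 := by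
      by_contra hcon
      push Not at hcon
      nlinarith
    have ht00 : 0 < t0 := by
      by_contra hcon
      push Not at hcon
      nlinarith
    have htt : t0 ≤ t := by
      by_contra hcon
      push Not at hcon
      nlinarith
    have hf0 : 1 - 2 * t0 * A + t0 ^ 2 * q ^ 2 ≤ 199 / 250 := by
      have h1 : t0 ^ 2 * q ^ 2 = 9 / 250 := by
        rw [← mul_pow, ht0e, mul_pow, hk]; norm_num
      have h2 : t0 * (kap * q) ≤ t0 * A := mul_le_mul_of_nonneg_left hkq ht00.le
      have h3 : t0 * (kap * q) = 3 / 25 := by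
        have : t0 * (kap * q) = kap * (t0 * q) := by ring
        rw [this, ht0e]; nlinarith
      rw [h1]; linarith
    have hf1 : 1 - 2 * A + q ^ 2 ≤ 199 / 250 := by linarith
    have h4 : 0 ≤ q ^ 2 * ((t - t0) * (1 - t)) :=
      mul_nonneg (sq_nonneg _) (mul_nonneg (by linarith) (by linarith))
    have h5 := mul_le_mul_of_nonneg_left hf0 (by linarith : (0:ℝ) ≤ 1 - t)
    have h6 := mul_le_mul_of_nonneg_left hf1 (by linarith : (0:ℝ) ≤ t - t0)
    have h7 : (1 - t0) * ‖x‖ ^ 2 ≤ (1 - t0) * (199 / 250) := by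
      rw [e2]
      have h8 : 0 ≤ (1 - t0) * (q ^ 2 * ((t - t0) * (1 - t))) := mul_nonneg (by linarith) h4
      have h9 : (1 - t0) * (1 - 2 * t * A + t ^ 2 * q ^ 2) =
          (1 - t) * (1 - 2 * t0 * A + t0 ^ 2 * q ^ 2) + (t - t0) * (1 - 2 * A + q ^ 2)
            - (1 - t0) * (q ^ 2 * ((t - t0) * (1 - t))) := by ring
      rw [h9]
      linarith
    exact le_of_mul_le_mul_left h7 (by linarith)

end Pool.Agent.Y373.NC
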