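import Pool.Agent.Helper2.NewtonCover

/-!
# Statements for the exponential growth of the largest Newton covering number

`hedge v`: the convex hull of the ball of radius `√(3/5)` and of the unit vectors `v 0, …, v (N - 1)`.
If the `v k` have pairwise inner products at most `19/100` and no isometry matches many of them with
other ones, then the interior of a congruent copy of `hedge v` contains few of the points `v k`.
-/

set_option autoImplicit false

namespace Pool.Agent.Y373.NC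

open Set Metric Pool.Agent.Helper2.NewtonCover

/-- the radius of the ball -/
noncomputable def b : ℝ := √(3 / 5)

/-- `kap ^ 2 = 1 - b ^ 2 = 2 / 5` -/
noncomputable def kap : ℝ := √(2 / 5)

/-- the body -/
def hedge {d N : ℕ} (v : Fin N → E d) : Set (E d) :=
  convexHull ℝ (closedBall (0 : E d) b ∪ range v)

/-- unit vectors with pairwise inner products at most `19 / 100` -/
def Sep {d N : ℕ} (v : Fin N → E d) : Prop :=
  (∀ i, ‖v i‖ = 1) ∧ ∀ i j, i ≠ j → inner ℝ (v i) (v j) ≤ (19 / 100 : ℝ)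

/-- for every isometry `g` at most `m` of the points are close to the image of another point -/
def FewMatches {d N : ℕ} (v : Fin N → E d) (m : ℕ) : Prop :=
  ∀ g : E d ≃ᵢ E d, Set.ncard {k : Fin N | ∃ l, l ≠ k ∧ ‖v k - g (v l)‖ ≤ 19 / 100} ≤ m

/-! ## geometry -/

/-- geometry of the cap `conv (ball ∪ {w})` at its apex `w` -/
def S_spike : Prop :=
  ∀ (d : ℕ) (w x : E d), ‖w‖ = 1 → x ∈ convexHull ℝ (insert w (closedBall (0 : E d) b)) →
    kap * ‖x - w‖ ≤ - inner ℝ w (x - w) ∧ (3 / 10 * kap ≤ ‖x - w‖ → ‖x‖ ^ 2 ≤ 199 / 250)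

/-- the body is the union of the ball and of the caps -/
def S_hull : Prop :=
  ∀ (d N : ℕ) (v : Fin N → E d), Sep v → ∀ x ∈ hedge v,
    x ∈ closedBall (0 : E d) b ∨ ∃ i, x ∈ convexHull ℝ (insert (v i) (closedBall (0 : E d) b))

/-- few points of a separated system lie in a spherical cap -/
def S_cap : Prop :=
  ∀ (d N : ℕ) (w : Fin N → E d), Sep w → ∀ (u : E d) (T : Finset (Fin N)), u ≠ 0 →
    (∀ i ∈ T, 7 / 10 * kap * ‖u‖ ≤ inner ℝ (w i) u) → T.card ≤ 166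

/-- few points lie in the cap at their own image -/
def S_pair : Prop :=
  ∀ (d N : ℕ) (v : Fin N → E d), Sep v → ∀ (U : E d ≃ₗᵢ[ℝ] E d) (c : E d) (T : Finset (Fin N)),
    (∀ i ∈ T, v i - (U (v i) + c) ≠ 0 ∧ ‖v i - (U (v i) + c)‖ ≤ 3 / 10 * kap ∧
      kap * ‖v i - (U (v i) + c)‖ ≤ - inner ℝ (U (v i)) (v i - (U (v i) + c))) → T.card ≤ 332

/-- the interior of one congruent copy contains few of the points -/
def S_copy : Prop :=
  ∀ (d N m : ℕ) (v : Fin N → E d), Sep v → FewMatches v m → ∀ g : E d ≃ᵢ E d,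
    Set.ncard {k : Fin N | v k ∈ interior (g '' hedge v)} ≤ 498 + m

/-- `hedge v` is a convex body contained in the unit ball, the origin is an interior point -/
def S_body : Prop :=
  ∀ (d N : ℕ) (v : Fin N → E d), Sep v →
    IsBody (hedge v) ∧ hedge v ⊆ closedBall (0 : E d) 1 ∧ (0 : E d) ∈ interior (hedge v)

/-- a lower bound for the Newton covering number of `hedge v` -/
def S_low : Prop :=
  ∀ (d N m n : ℕ) (v : Fin N → E d), Sep v → FewMatches v m → Covers (hedge v) n →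
    N ≤ n * (498 + m)

/-! ## existence of the points -/

/-- the unit vector with the signs `s` -/
noncomputable def pt (d : ℕ) (s : Fin d → Bool) : E d :=
  WithLp.toLp 2 (fun i => (if s i then (1 : ℝ) else -1) / √d)

/-- Hoeffding's inequality -/
def S_hoef : Prop :=
  ∀ d : ℕ, 1 ≤ d → ∀ u : E d, ‖u‖ = 1 → ∀ t : ℝ, 0 ≤ t →
    (Set.ncard {s : Fin d → Bool | t ≤ inner ℝ (pt d s) u} : ℝ) ≤
      2 ^ d * Real.exp (-(t ^ 2 * d / 2))

/-- few sign vectors are close to a given point -/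
def S_ball : Prop :=
  ∀ d : ℕ, 1 ≤ d → ∀ y : E d,
    (Set.ncard {s : Fin d → Bool | ‖pt d s - y‖ ≤ 24 / 125} : ℝ) ≤
      2 ^ d * Real.exp (-(12 / 25 * d))

/-- counting functions with `m` independent rare coincidences -/
def S_cnt : Prop :=
  ∀ (Ω : Type) [Fintype Ω] (N m : ℕ) (B : ℝ) (P : Fin m → Ω → Ω → Prop) (a l : Fin m → Fin N),
    Function.Injective a → (∀ i j, l i ≠ a j) →
    (∀ i y, (Set.ncard {x : Ω | P i x y} : ℝ) ≤ B) →
    (Set.ncard {s : Fin N → Ω | ∀ i, P i (s (a i)) (s (l i))} : ℝ) ≤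
      B ^ m * (Fintype.card Ω : ℝ) ^ (N - m)

/-- an affine map given by integers -/
noncomputable def G (d : ℕ) (A : Fin d → Fin d → ℤ) (c : Fin d → ℤ) (x : E d) : E d :=
  WithLp.toLp 2 (fun i => ((∑ j, (A i j : ℝ) * x j) + c i) / (1000 * d))

/-- rounding of isometries -/
def S_net : Prop :=
  ∀ d : ℕ, 1 ≤ d → ∀ g : E d ≃ᵢ E d, ‖g 0‖ ≤ 3 →
    ∃ (A : Fin d → Fin d → ℤ) (c : Fin d → ℤ), (∀ i j, |A i j| ≤ 1000 * d) ∧
      (∀ i, |c i| ≤ 3000 * d) ∧ ∀ x : E d, ‖x‖ ≤ 1 → ‖g x - G d A c x‖ ≤ 1 / 500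

/-- no map `G d A c` matches `m` points with other ones -/
def NoBad {d N : ℕ} (m : ℕ) (v : Fin N → E d) : Prop :=
  ∀ (A : Fin d → Fin d → ℤ) (c : Fin d → ℤ), (∀ i j, |A i j| ≤ 1000 * d) →
    (∀ i, |c i| ≤ 3000 * d) → ∀ a l : Fin m → Fin N, Function.Injective a →
    (∀ i j, l i ≠ a j) → ∃ i, 24 / 125 < ‖v (a i) - G d A c (v (l i))‖

/-- from finitely many maps to all isometries -/
def S_match : Prop :=
  ∀ (d N m : ℕ) (v : Fin N → E d), 1 ≤ d → Sep v → NoBad m v → FewMatches v (3 * m)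

/-- few choices of signs give a system that is not separated -/
def S_sepc : Prop :=
  ∀ d N : ℕ, 1 ≤ d →
    (Set.ncard {s : Fin N → (Fin d → Bool) | ¬ Sep (fun k => pt d (s k))} : ℝ) ≤
      (N : ℝ) ^ 2 * (2 ^ d) ^ N * Real.exp (-(361 / 20000 * d))

/-- few choices of signs allow many matches -/
def S_badc : Prop :=
  ∀ d N m : ℕ, 1 ≤ d →
    (Set.ncard {s : Fin N → (Fin d → Bool) | ¬ NoBad m (fun k => pt d (s k))} : ℝ) ≤
      (6001 * d : ℝ) ^ (d ^ 2 + d) * (N : ℝ) ^ (2 * m) * (2 ^ d) ^ N *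
        Real.exp (-(12 / 25 * d * m))

/-- the two failure probabilities are small -/
def S_num : Prop :=
  ∃ d₀ : ℕ, ∀ d : ℕ, d₀ ≤ d → ∀ x : ℝ, 0 ≤ x → x ≤ Real.exp (9 / 1000 * d) →
    x ^ 2 * Real.exp (-(361 / 20000 * d)) +
      (6001 * d : ℝ) ^ (d ^ 2 + d) * x ^ (2 * d ^ 2) * Real.exp (-(12 / 25 * d * (d ^ 2 : ℕ))) < 1

/-- existence of the points -/
def S_exist : Prop :=
  ∃ d₀ : ℕ, ∀ d : ℕ, d₀ ≤ d → ∀ N : ℕ, (N : ℝ) ≤ Real.exp (9 / 1000 * d) →
    ∃ v : Fin N → E d, Sep v ∧ FewMatches v (3 * d ^ 2)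

/-- the polynomial factor is absorbed -/
def S_num2 : Prop :=
  ∃ d₀ : ℕ, ∀ d : ℕ, d₀ ≤ d →
    (1009 / 1000 : ℝ) ^ d * (498 + 3 * d ^ 2) ≤ (⌊Real.exp (9 / 1000 * d)⌋₊ : ℝ)

/-- the upper bound -/
def S_upper : Prop :=
  ∀ d : ℕ, 1 ≤ d → ∀ C : Set (E d), IsBody C → newton C ≤ 7 ^ d

end Pool.Agent.Y373.NC
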