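import Pool.Agent.Y373.NC.Stm

/-!
# Every convex body in `R^d` is covered by the interiors of `7 ^ d` translates
-/

set_option autoImplicit false

namespace Pool.Agent.Y373.NC

open Set Metric MeasureTheory Pool.Agent.Helper2.NewtonCover
open scoped Pointwise ENNReal

/-- the symmetral of `K` about `c`, moved to the origin -/
private def upper_L {d : ℕ} (K : Set (E d)) (c : E d) : Set (E d) :=
  {y | c + y ∈ K ∧ c - y ∈ K}

private theorem upper_vol_pre {d : ℕ} (K : Set (E d)) (x : E d) :
    volume {c : E d | (2 : ℝ) • c - x ∈ K} = ENNReal.ofReal ((1 / 2 : ℝ) ^ d) * volume K := by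
  have h1 : {c : E d | (2 : ℝ) • c - x ∈ K} = (fun c : E d => (2 : ℝ) • c) ⁻¹' ((fun y => y - x) ⁻¹' K) := rfl
  rw [h1, Measure.addHaar_preimage_smul volume (by norm_num : (2 : ℝ) ≠ 0)]
  have h2 : volume ((fun y : E d => y - x) ⁻¹' K) = volume K := by
    simp [sub_eq_add_neg, measure_preimage_add_right]
  rw [h2]
  congr 2
  rw [finrank_euclideanSpace, Fintype.card_fin, abs_of_pos (by positivity)]
  simp

private theorem upper_center {d : ℕ} {K : Set (E d)} (hc : Convex ℝ K) (hk : IsCompact K)
    (hne : (interior K).Nonempty) :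
    ∃ c ∈ K, ENNReal.ofReal ((1 / 2 : ℝ) ^ d) * volume K ≤ volume (upper_L K c) := by
  have hKm : MeasurableSet K := hk.isClosed.measurableSet
  have hpos : volume K ≠ 0 := (Measure.measure_pos_of_nonempty_interior volume hne).ne'
  have hfin : volume K ≠ ∞ := hk.measure_lt_top.ne
  set f : E d → ℝ≥0∞ := fun c => volume (K ∩ {x | (2 : ℝ) • c - x ∈ K}) with hf
  have hf2 : ∀ c, f c = ∫⁻ x, K.indicator 1 x * K.indicator 1 ((2 : ℝ) • c - x) := by
    intro c
    have : ∀ x : E d, (K.indicator (1 : E d → ℝ≥0∞) x * K.indicator 1 ((2 : ℝ) • c - x)) =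
        (K ∩ {x | (2 : ℝ) • c - x ∈ K}).indicator 1 x := by
      intro x
      by_cases h1 : x ∈ K <;> by_cases h2 : (2 : ℝ) • c - x ∈ K <;> simp [indicator, h1, h2]
    simp only [this]
    rw [lintegral_indicator_one]
    apply hKm.inter
    exact hKm.preimage (by fun_prop)
  have hint : ∫⁻ c, f c = ENNReal.ofReal ((1 / 2 : ℝ) ^ d) * volume K * volume K := by
    simp only [hf2]
    rw [lintegral_lintegral_swap]
    · have : ∀ x : E d, ∫⁻ c : E d, (K.indicator (1 : E d → ℝ≥0∞) x *
          K.indicator 1 ((2 : ℝ) • c - x)) =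
          K.indicator (fun _ => ENNReal.ofReal ((1 / 2 : ℝ) ^ d) * volume K) x := by
        intro x
        by_cases h1 : x ∈ K
        · have h3 : ∀ c : E d, K.indicator (1 : E d → ℝ≥0∞) x * K.indicator 1 ((2 : ℝ) • c - x) =
              ({c : E d | (2 : ℝ) • c - x ∈ K}).indicator 1 c := by
            intro c
            by_cases h2 : (2 : ℝ) • c - x ∈ K <;> simp [indicator, h1, h2]
          simp only [h3]
          have h4 : MeasurableSet {c : E d | (2 : ℝ) • c - x ∈ K} :=
            hKm.preimage (by fun_prop : Measurable fun c : E d => (2 : ℝ) • c - x)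
          rw [lintegral_indicator_one h4, upper_vol_pre]
          simp [h1]
        · simp [h1]
      simp only [this]
      rw [lintegral_indicator hKm]
      simp
    · apply Measurable.aemeasurable
      apply Measurable.mul
      · exact (measurable_one.indicator hKm).comp measurable_snd
      · exact (measurable_one.indicator hKm).comp (by fun_prop)
  have hsup : ∀ c, c ∉ K → f c = 0 := by
    intro c hcK
    have : K ∩ {x | (2 : ℝ) • c - x ∈ K} = ∅ := by
      rw [eq_empty_iff_forall_notMem]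
      rintro x ⟨hx1, hx2⟩
      apply hcK
      have := hc hx1 hx2 (a := 1 / 2) (b := 1 / 2) (by norm_num) (by norm_num) (by norm_num)
      have h4 : (1 / 2 : ℝ) • x + (1 / 2 : ℝ) • ((2 : ℝ) • c - x) = c := by
        rw [smul_sub, smul_smul]; norm_num
      rwa [h4] at this
    simp [hf, this]
  have hint2 : ∫⁻ c in K, f c = ENNReal.ofReal ((1 / 2 : ℝ) ^ d) * volume K * volume K := by
    rw [← hint, ← lintegral_indicator hKm]
    congr 1
    ext c
    by_cases h : c ∈ K
    · simp [h]
    · simp [h, hsup c h]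
  obtain ⟨c, hcK, hle⟩ := exists_setLAverage_le hpos hKm.nullMeasurableSet (f := f) (by
    rw [hint2]
    exact ENNReal.mul_ne_top (ENNReal.mul_ne_top ENNReal.ofReal_ne_top hfin) hfin)
  refine ⟨c, hcK, ?_⟩
  rw [setLAverage_eq, hint2, mul_div_assoc, ENNReal.div_self hpos hfin, mul_one] at hle
  refine hle.trans (le_of_eq ?_)
  have : upper_L K c = (fun y => c + y) ⁻¹' (K ∩ {x | (2 : ℝ) • c - x ∈ K}) := by
    ext y
    simp only [upper_L, mem_ofPred_eq, mem_preimage, mem_inter_iff]
    have : (2 : ℝ) • c - (c + y) = c - y := by rw [two_smul]; abel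
    rw [this]
  rw [this, measure_preimage_add volume c]

private theorem upper_L_convex {d : ℕ} {K : Set (E d)} (hc : Convex ℝ K) (c : E d) :
    Convex ℝ (upper_L K c) := by
  rintro x ⟨hx1, hx2⟩ y ⟨hy1, hy2⟩ a b ha hb hab
  constructor
  · have := hc hx1 hy1 ha hb hab
    convert this using 1
    rw [smul_add, smul_add]
    have : c = a • c + b • c := by rw [← add_smul, hab, one_smul]
    nth_rewrite 1 [this]
    abel
  · have := hc hx2 hy2 ha hb hab
    convert this using 1
    rw [smul_sub, smul_sub]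
    have : c = a • c + b • c := by rw [← add_smul, hab, one_smul]
    nth_rewrite 1 [this]
    abel

private theorem upper_L_closed {d : ℕ} {K : Set (E d)} (hk : IsCompact K) (c : E d) :
    IsClosed (upper_L K c) :=
  (hk.isClosed.preimage (by fun_prop : Continuous fun y : E d => c + y)).inter
    (hk.isClosed.preimage (by fun_prop : Continuous fun y : E d => c - y))

private theorem upper_L_neg {d : ℕ} {K : Set (E d)} (c : E d) {y : E d} (hy : y ∈ upper_L K c) :
    -y ∈ upper_L K c := by
  refine ⟨?_, ?_⟩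
  · rw [← sub_eq_add_neg]; exact hy.2
  · rw [sub_neg_eq_add]; exact hy.1

private theorem upper_L_int {d : ℕ} {K : Set (E d)} (hc : Convex ℝ K) (c : E d)
    (hpos : volume (upper_L K c) ≠ 0) :
    volume (interior (upper_L K c)) = volume (upper_L K c) ∧ (0 : E d) ∈ interior (upper_L K c) := by
  have h1 : volume (frontier (upper_L K c)) = 0 := (upper_L_convex hc c).addHaar_frontier volume
  have h2 : volume (interior (upper_L K c)) = volume (upper_L K c) := by
    apply le_antisymm (measure_mono interior_subset)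
    calc volume (upper_L K c) ≤ volume (interior (upper_L K c) ∪ frontier (upper_L K c)) := by
          apply measure_mono
          rw [← closure_eq_interior_union_frontier]
          exact subset_closure
      _ ≤ volume (interior (upper_L K c)) + volume (frontier (upper_L K c)) := measure_union_le _ _
      _ = volume (interior (upper_L K c)) := by rw [h1, add_zero]
  refine ⟨h2, ?_⟩
  have h3 : (interior (upper_L K c)).Nonempty := by
    apply nonempty_of_measure_ne_zero (μ := volume)
    rwa [h2]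
  obtain ⟨y, hy⟩ := h3
  have hny : -y ∈ interior (upper_L K c) := by
    rw [mem_interior] at hy ⊢
    obtain ⟨t, ht1, ht2, ht3⟩ := hy
    refine ⟨-t, ?_, ht2.neg, by simpa using ht3⟩
    intro z hz
    have := upper_L_neg c (ht1 (Set.mem_neg.1 hz))
    simpa using this
  have := (upper_L_convex hc c).interior hy hny (a := 1 / 2) (b := 1 / 2) (by norm_num)
    (by norm_num) (by norm_num)
  simpa using this

/-- the volume estimate for separated sets -/
private theorem upper_card {d : ℕ} {K : Set (E d)} (hc : Convex ℝ K) (hk : IsCompact K) {c : E d}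
    (hcK : c ∈ K) (hpos : volume K ≠ 0)
    (hvol : ENNReal.ofReal ((1 / 2 : ℝ) ^ d) * volume K ≤ volume (upper_L K c))
    (F : Finset (E d)) (hF : ∀ x ∈ F, x ∈ K)
    (hsep : ∀ x ∈ F, ∀ y ∈ F, x ≠ y → ∀ a ∈ upper_L K c, x - y ≠ (6 / 7 : ℝ) • a) :
    F.card ≤ 7 ^ d := by
  have hfin : volume K ≠ ∞ := hk.measure_lt_top.ne
  have hLpos : volume (upper_L K c) ≠ 0 := by
    have : ENNReal.ofReal ((1 / 2 : ℝ) ^ d) * volume K ≠ 0 := by
      apply mul_ne_zero _ hpos
      rw [Ne, ENNReal.ofReal_eq_zero, not_le]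
      positivity
    exact (lt_of_lt_of_le (pos_iff_ne_zero.2 this) hvol).ne'
  obtain ⟨hint, h0⟩ := upper_L_int hc c hLpos
  set I := interior (upper_L K c) with hI
  -- the pieces
  let P : E d → Set (E d) := fun x => (fun z => x + z) '' ((3 / 7 : ℝ) • I)
  have hPm : ∀ x, MeasurableSet (P x) := by
    intro x
    have : IsOpen ((3 / 7 : ℝ) • I) := (isOpen_interior).smul₀ (by norm_num)
    exact ((Homeomorph.addLeft x).isOpenMap _ this).measurableSet
  have hPv : ∀ x, volume (P x) = ENNReal.ofReal ((3 / 7 : ℝ) ^ d) * volume (upper_L K c) := by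
    intro x
    have h1 : volume (P x) = volume ((3 / 7 : ℝ) • I) := by
      simp only [P, image_add_left]
      exact measure_preimage_add volume (-x) _
    rw [h1, Measure.addHaar_smul, hint, finrank_euclideanSpace, Fintype.card_fin,
      abs_of_pos (by positivity)]
  have hdisj : (F : Set (E d)).PairwiseDisjoint P := by
    intro x hx y hy hxy
    rw [Function.onFun, Set.disjoint_left]
    rintro z ⟨_, ⟨a, ha, rfl⟩, hza⟩ ⟨_, ⟨b, hb, rfl⟩, hzb⟩
    simp only at hza hzb
    have hab : (1 / 2 : ℝ) • b + (1 / 2 : ℝ) • (-a) ∈ upper_L K c :=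
      upper_L_convex hc c (interior_subset hb) (upper_L_neg c (interior_subset ha))
        (by norm_num) (by norm_num) (by norm_num)
    apply hsep x hx y hy hxy _ hab
    have h1 : x + (3 / 7 : ℝ) • a = y + (3 / 7 : ℝ) • b := by rw [hza, hzb]
    have h2 : x - y = (3 / 7 : ℝ) • b - (3 / 7 : ℝ) • a := by
      have : x = y + (3 / 7 : ℝ) • b - (3 / 7 : ℝ) • a := by rw [← h1]; abel
      rw [this]; abel
    rw [h2, smul_add, smul_smul, smul_smul, smul_neg]
    norm_num
    rw [sub_eq_add_neg]
  have hsub : (⋃ x ∈ F, P x) ⊆ (fun w => -((1 / 2 : ℝ) • c) + w) '' ((3 / 2 : ℝ) • K) := by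
    intro z hz
    simp only [mem_iUnion] at hz
    obtain ⟨x, hx, _, ⟨a, ha, rfl⟩, rfl⟩ := hz
    have ha' := interior_subset ha
    have hk' : c + (6 / 7 : ℝ) • a ∈ K := by
      have := hc hcK ha'.1 (a := 1 / 7) (b := 6 / 7) (by norm_num) (by norm_num) (by norm_num)
      convert this using 1
      rw [smul_add, ← add_assoc, ← add_smul]
      norm_num
    have hm := hc (hF x hx) hk' (a := 2 / 3) (b := 1 / 3) (by norm_num) (by norm_num) (by norm_num)
    refine ⟨(3 / 2 : ℝ) • ((2 / 3 : ℝ) • x + (1 / 3 : ℝ) • (c + (6 / 7 : ℝ) • a)),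
      ⟨_, hm, rfl⟩, ?_⟩
    simp only [smul_add, smul_smul]
    norm_num
    abel
  have hsum : (F.card : ℝ≥0∞) * (ENNReal.ofReal ((3 / 7 : ℝ) ^ d) * volume (upper_L K c)) ≤
      ENNReal.ofReal ((3 / 2 : ℝ) ^ d) * volume K := by
    calc (F.card : ℝ≥0∞) * (ENNReal.ofReal ((3 / 7 : ℝ) ^ d) * volume (upper_L K c))
        = ∑ x ∈ F, volume (P x) := by
          rw [Finset.sum_congr rfl (fun x _ => hPv x), Finset.sum_const, nsmul_eq_mul]
      _ = volume (⋃ x ∈ F, P x) := (measure_biUnion_finset hdisj (fun x _ => hPm x)).symm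
      _ ≤ volume ((fun w => -((1 / 2 : ℝ) • c) + w) '' ((3 / 2 : ℝ) • K)) := measure_mono hsub
      _ = ENNReal.ofReal ((3 / 2 : ℝ) ^ d) * volume K := by
          rw [image_add_left, measure_preimage_add, Measure.addHaar_smul, finrank_euclideanSpace,
            Fintype.card_fin, abs_of_pos (by positivity)]
  -- to real numbers
  have hLfin : volume (upper_L K c) ≠ ∞ := by
    have : upper_L K c ⊆ (fun y => c + y) ⁻¹' K := fun y hy => hy.1
    apply ne_top_of_le_ne_top _ (measure_mono this)
    rw [measure_preimage_add]; exact hfin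
  set VK := (volume K).toReal with hVK
  set VL := (volume (upper_L K c)).toReal with hVL
  have hK' : volume K = ENNReal.ofReal VK := (ENNReal.ofReal_toReal hfin).symm
  have hL' : volume (upper_L K c) = ENNReal.ofReal VL := (ENNReal.ofReal_toReal hLfin).symm
  have hVKp : 0 < VK := ENNReal.toReal_pos hpos hfin
  have hVLp : 0 < VL := ENNReal.toReal_pos hLpos hLfin
  rw [hK', hL', ← ENNReal.ofReal_mul (by positivity)] at hvol
  rw [hK', hL', ← ENNReal.ofReal_mul (by positivity), ← ENNReal.ofReal_mul (by positivity),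
    ← ENNReal.ofReal_natCast, ← ENNReal.ofReal_mul (Nat.cast_nonneg F.card)] at hsum
  rw [ENNReal.ofReal_le_ofReal_iff hVLp.le] at hvol
  rw [ENNReal.ofReal_le_ofReal_iff (by positivity)] at hsum
  -- (card) (3/7)^d VL ≤ (3/2)^d VK ≤ (3/2)^d 2^d VL
  have h3 : VK ≤ 2 ^ d * VL := by
    have : (2 : ℝ) ^ d * ((1 / 2) ^ d * VK) ≤ 2 ^ d * VL :=
      mul_le_mul_of_nonneg_left hvol (by positivity)
    rwa [← mul_assoc, ← mul_pow, show (2 : ℝ) * (1 / 2) = 1 by norm_num, one_pow, one_mul] at this
  have h4 : (F.card : ℝ) * (3 / 7) ^ d * VL ≤ 3 ^ d * VL := by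
    calc (F.card : ℝ) * (3 / 7) ^ d * VL = F.card * ((3 / 7) ^ d * VL) := by ring
      _ ≤ (3 / 2) ^ d * VK := hsum
      _ ≤ (3 / 2) ^ d * (2 ^ d * VL) := mul_le_mul_of_nonneg_left h3 (by positivity)
      _ = 3 ^ d * VL := by rw [← mul_assoc, ← mul_pow]; norm_num
  have h5 : (F.card : ℝ) * (3 / 7) ^ d ≤ 3 ^ d := le_of_mul_le_mul_right h4 hVLp
  have h6 : (F.card : ℝ) ≤ 7 ^ d := by
    have h7 : (3 : ℝ) ^ d = 7 ^ d * (3 / 7) ^ d := by
      rw [← mul_pow, show (7 : ℝ) * (3 / 7) = 3 by norm_num]
    rw [h7] at h5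
    exact le_of_mul_le_mul_right h5 (by positivity)
  exact_mod_cast h6

theorem upper : S_upper := by
  intro d _ K hK
  obtain ⟨hc, hk, hne⟩ := hK
  obtain ⟨c, hcK, hvol⟩ := upper_center hc hk hne
  have hpos : volume K ≠ 0 := (Measure.measure_pos_of_nonempty_interior volume hne).ne'
  have hLpos : volume (upper_L K c) ≠ 0 := by
    have : ENNReal.ofReal ((1 / 2 : ℝ) ^ d) * volume K ≠ 0 := by
      apply mul_ne_zero _ hpos
      rw [Ne, ENNReal.ofReal_eq_zero, not_le]
      positivity
    exact (lt_of_lt_of_le (pos_iff_ne_zero.2 this) hvol).ne'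
  obtain ⟨-, h0⟩ := upper_L_int hc c hLpos
  have hcint : c ∈ interior K := by
    rw [mem_interior] at h0 ⊢
    obtain ⟨t, ht1, ht2, ht3⟩ := h0
    refine ⟨(fun z => c + z) '' t, ?_, (Homeomorph.addLeft c).isOpenMap _ ht2, ⟨0, ht3, by simp⟩⟩
    rintro _ ⟨z, hz, rfl⟩
    exact (ht1 hz).1
  -- a maximal separated set
  have hex : ∃ F : Finset (E d), (∀ x ∈ F, x ∈ K) ∧ F.card ≤ 7 ^ d ∧
      ∀ x ∈ K, ∃ y ∈ F, ∃ a ∈ upper_L K c, x - y = (6 / 7 : ℝ) • a := by
    by_contra hno
    push Not at hno
    have hall : ∀ n : ℕ, ∃ F : Finset (E d), F.card = n ∧ (∀ x ∈ F, x ∈ K) ∧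
        ∀ x ∈ F, ∀ y ∈ F, x ≠ y → ∀ a ∈ upper_L K c, x - y ≠ (6 / 7 : ℝ) • a := by
      intro n
      induction n with
      | zero => exact ⟨∅, rfl, by simp, by simp⟩
      | succ n ih =>
        obtain ⟨F, hFn, hFK, hFs⟩ := ih
        obtain ⟨x, hx, hxn⟩ := hno F hFK (upper_card hc hk hcK hpos hvol F hFK hFs)
        have h0L : (0 : E d) ∈ upper_L K c := by simp [upper_L, hcK]
        have hxF : x ∉ F := fun h => hxn x h 0 h0L (by simp)
        refine ⟨F.cons x hxF, by rw [Finset.card_cons, hFn], ?_, ?_⟩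
        · intro y hy
          rcases Finset.mem_cons.1 hy with rfl | hy
          · exact hx
          · exact hFK y hy
        · intro y hy z hz hyz a ha
          rcases Finset.mem_cons.1 hy with hyx | hy
          · rcases Finset.mem_cons.1 hz with hzx | hz
            · exact absurd (hyx.trans hzx.symm) hyz
            · rw [hyx]; exact hxn z hz a ha
          · rcases Finset.mem_cons.1 hz with hzx | hz
            · rw [hzx]
              intro h
              apply hxn y hy (-a) (upper_L_neg c ha)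
              rw [smul_neg, ← h]; abel
            · exact hFs y hy z hz hyz a ha
    obtain ⟨F, hFn, hFK, hFs⟩ := hall (7 ^ d + 1)
    have := upper_card hc hk hcK hpos hvol F hFK hFs
    omega
  obtain ⟨F, hFK, hFc, hFcov⟩ := hex
  refine le_trans (Nat.sInf_le ?_) hFc
  let e := F.equivFin
  refine ⟨fun i => IsometryEquiv.addRight ((e.symm i : E d) - c),
    ⋃ i, {z | z - (e.symm i : E d) + c ∈ interior K}, ?_, ?_, ?_⟩
  · apply isOpen_iUnion
    intro i
    exact isOpen_interior.preimage (by fun_prop)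
  · intro x hx
    obtain ⟨y, hy, a, ha, hxy⟩ := hFcov x hx
    rw [mem_iUnion]
    refine ⟨e ⟨y, hy⟩, ?_⟩
    simp only [Equiv.symm_apply_apply, mem_ofPred_eq]
    rw [hxy]
    have := hc.combo_interior_self_mem_interior hcint ha.1 (a := 1 / 7) (b := 6 / 7) (by norm_num)
      (by norm_num) (by norm_num)
    convert this using 1
    rw [smul_add, ← add_assoc, ← add_smul]
    norm_num
    abel
  · intro z hz
    rw [mem_iUnion] at hz ⊢
    obtain ⟨i, hi⟩ := hz
    refine ⟨i, z - (e.symm i : E d) + c, interior_subset hi, ?_⟩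
    simp

end Pool.Agent.Y373.NC
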